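import Pool.Agent.Compl.Expand
import Pool.Agent.Helper23.KC.Block

/-! # The core of the proof: a countable set of operators on `ℓ²` on which no bounded linear map
into the compact operators fixing the compact operators can be defined -/

set_option autoImplicit false

namespace Pool.Agent.Compl

open scoped ComplexConjugate BigOperators
open Pool.Agent.Helper23.KC

/-- the index set of the blocks -/
abbrev Idx : Type := Σ p : ℕ × ℕ, (Fin p.1 → Om p.2)

theorem exists_enc : ∃ e : Idx → ℕ, Function.Injective e := by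
  have : Countable Idx := inferInstance
  exact exists_injective_nat Idx

/-- an injective numbering of the basis vectors of all blocks -/
noncomputable def enc : Idx → ℕ := exists_enc.choose

lemma enc_inj : Function.Injective enc := exists_enc.choose_spec

/-- the numbering at level `m` -/
noncomputable def em (m : ℕ) (p : Σ n, (Fin m → Om n)) : ℕ := enc ⟨(m, p.1), p.2⟩

lemma em_inj (m : ℕ) : Function.Injective (em m) := by
  rintro ⟨n, x⟩ ⟨n', x'⟩ h
  have h1 := enc_inj h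
  simp only [Sigma.mk.injEq, Prod.mk.injEq, true_and] at h1
  obtain ⟨h2, h3⟩ := h1
  subst h2
  rw [eq_of_heq h3]

/-- the block diagonal operators of level `m` -/
noncomputable def JJ (m : ℕ) : (∀ n, Matrix (Fin m → Om n) (Fin m → Om n) ℂ) →ₗ[ℂ] BL :=
  (block (em m) (em_inj m)).choose

lemma JJ_norm (m : ℕ) (a : ∀ n, Matrix (Fin m → Om n) (Fin m → Om n) ℂ) (C : ℝ)
    (h : ∀ n, OpBd (a n) C) : ‖JJ m a‖ ≤ C :=
  (block (em m) (em_inj m)).choose_spec.1 a C h

lemma JJ_cut (m : ℕ) (a : ∀ n, Matrix (Fin m → Om n) (Fin m → Om n) ℂ) (C : ℝ)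
    (h : ∀ n, OpBd (a n) C) (n : ℕ) : cut (fun x => em m ⟨n, x⟩) (JJ m a) = a n :=
  (block (em m) (em_inj m)).choose_spec.2.1 a C h n

lemma JJ_compact (m : ℕ) (a : ∀ n, Matrix (Fin m → Om n) (Fin m → Om n) ℂ)
    (h : ∃ N, ∀ n, N < n → a n = 0) : IsCompactOperator (⇑(JJ m a)) :=
  (block (em m) (em_inj m)).choose_spec.2.2 a h

/-- `cut` as a linear map -/
noncomputable def cutL (m n : ℕ) : BL →ₗ[ℂ] Matrix (Fin m → Om n) (Fin m → Om n) ℂ where
  toFun T := cut (fun x => em m ⟨n, x⟩) T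
  map_add' S T := by
    ext i j
    rfl
  map_smul' c T := by
    ext i j
    rfl

lemma prod_unit_nonneg {m B : ℕ} (C : Fin B → ℝ) (h : ∀ b, 0 ≤ C b) (β : Fin m → Fin B) :
    0 ≤ ∏ l, C (β l) := Finset.prod_nonneg fun _ _ => h _

lemma sum_prod_pow {m B : ℕ} {R : Type*} [CommSemiring R] (C : Fin B → R) :
    ∑ β : Fin m → Fin B, ∏ l, C (β l) = (∑ b, C b) ^ m := by
  have h := Finset.prod_univ_sum (fun _ : Fin m => (Finset.univ : Finset (Fin B))) (fun _ b => C b)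
  rw [Finset.prod_const, Finset.card_univ, Fintype.card_fin, Fintype.piFinset_univ] at h
  exact h.symm

theorem core : ∃ S : Set BL, S.Countable ∧ ∀ (P : BL →ₗ[ℂ] BL) (K : ℝ), 0 ≤ K →
    (∀ T ∈ S, IsCompactOperator (⇑(P T)) ∧ ‖P T‖ ≤ K * ‖T‖) →
    (∀ T : BL, IsCompactOperator (⇑T) → P T = T) → False := by
  classical
  choose B L a C ξ η f c ξ' η' ha hf heq hlt using certificate
  let 𝒢 : Set Fam := (⋃ n, Set.range (a n)) ∪ Set.range Fm
  have h𝒢 : 𝒢.Countable :=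
    (Set.countable_iUnion fun n => Set.countable_range _).union (Set.countable_range _)
  let S : Set BL := ⋃ m : ℕ, (fun g : Fin m → Fam => JJ m (tf g)) '' {g | ∀ l, g l ∈ 𝒢}
  have hS : S.Countable := by
    refine Set.countable_iUnion fun m => Set.Countable.image ?_ _
    have := Set.countable_pi (fun _ : Fin m => h𝒢)
    refine this.mono ?_
    intro g hg
    exact hg
  have memS : ∀ (m : ℕ) (g : Fin m → Fam), (∀ l, g l ∈ 𝒢) → JJ m (tf g) ∈ S := by
    intro m g hg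
    exact Set.mem_iUnion.2 ⟨m, g, hg, rfl⟩
  refine ⟨S, hS, fun P K hK hP1 hP2 => ?_⟩
  set D : ℝ := 1 + 1 / 10 ^ 6 with hD
  set ε : ℝ := 1 / 10 ^ 6 with hε
  have hε0 : 0 < ε := by rw [hε]; norm_num
  obtain ⟨m0, hm0⟩ := pow_unbounded_of_one_lt (1 + K) (show 1 < D by rw [hD]; norm_num)
  set m := m0 + 1 with hm
  have hDm : 1 + K ≤ D ^ m := by
    refine hm0.le.trans (pow_le_pow_right₀ (by rw [hD]; norm_num) (by omega))
  have hδ : 0 < ε ^ m / 2 := by positivity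
  -- the compact error terms
  have hN : ∃ N, ∀ n, N ≤ n → ∀ γ : Fin m → FI, ∀ x y : (Fin m → Om n) → ℂ, UB x → UB y →
      ‖frm (cutL m n (P (JJ m (tf fun l => Fm (γ l))))) x y‖ ≤ ε ^ m / 2 := by
    have h1 : ∀ γ : Fin m → FI, ∃ N, ∀ n, N ≤ n → ∀ x y : (Fin m → Om n) → ℂ, UB x → UB y →
        ‖frm (cutL m n (P (JJ m (tf fun l => Fm (γ l))))) x y‖ ≤ ε ^ m / 2 := by
      intro γ
      exact compact_small (em m) (em_inj m) _
        (hP1 _ (memS m _ (fun l => Or.inr ⟨γ l, rfl⟩))).1 _ hδ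
    choose N hN using h1
    refine ⟨Finset.univ.sup N, fun n hn γ => hN γ n ?_⟩
    exact (Finset.le_sup (Finset.mem_univ γ)).trans hn
  obtain ⟨n, hn⟩ := hN
  specialize hn n le_rfl
  -- the map Θ
  let Θ : (∀ k, Matrix (Fin m → Om k) (Fin m → Om k) ℂ) →ₗ[ℂ]
      Matrix (Fin m → Om n) (Fin m → Om n) ℂ :=
    LinearMap.proj n - (cutL m n) ∘ₗ P ∘ₗ (JJ m)
  have hΘ : ∀ A, Θ A = A n - cutL m n (P (JJ m A)) := fun A => rfl
  have hΘ0 : ∀ A : (∀ k, Matrix (Fin m → Om k) (Fin m → Om k) ℂ),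
      (∃ N, ∀ k, N < k → A k = 0) → Θ A = 0 := by
    intro A hA
    obtain ⟨C, hC⟩ := bounded_of_finite A hA
    rw [hΘ, hP2 _ (JJ_compact m A hA)]
    change A n - cut (fun x => em m ⟨n, x⟩) (JJ m A) = 0
    rw [JJ_cut m A C hC, sub_self]
  have hΘb : ∀ (g : Fin m → Fam) (R : Fin m → ℝ), (∀ l, g l ∈ 𝒢) → (∀ l, bd (g l) (R l)) →
      ∀ x y, UB x → UB y → ‖frm (Θ (tf g)) x y‖ ≤ (1 + K) * ∏ l, R l := by
    intro g R hg hR x y hx hy
    have h1 : ∀ k, OpBd (tf g k) (∏ l, R l) := fun k => tf_bd g R hR k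
    have h2 : ‖frm (tf g n) x y‖ ≤ ∏ l, R l := frm_le_of_opBd (h1 n) x y hx hy
    have h3 : ‖frm (cutL m n (P (JJ m (tf g)))) x y‖ ≤ ‖P (JJ m (tf g))‖ :=
      frm_cut_le _ (fun x x' hxx => by
        have := em_inj m hxx
        simpa using this) _ x y hx hy
    have h4 := (hP1 _ (memS m g hg)).2
    have h5 : K * ‖JJ m (tf g)‖ ≤ K * ∏ l, R l :=
      mul_le_mul_of_nonneg_left (JJ_norm m _ _ h1) hK
    rw [hΘ, frm_sub]
    refine (norm_sub_le _ _).trans ?_
    linarith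
  -- equality of the two tensor powers
  set ι1 : (Fin m → Om n) → (Fin m → Om n) → Fin m → Fam := fun i j l =>
    ∑ b, ((1 : ℂ) * (ξ n b (j l) * conj (η n b (i l)))) • a n b with hι1
  set ι2 : (Fin m → Om n) → (Fin m → Om n) → Fin m → Fam := fun i j l =>
    ∑ b, ((c n b : ℂ) * (ξ' n b (j l) * conj (η' n b (i l)))) • Fm (f n b) with hι2
  have hdiff : ∀ i j : Fin m → Om n, Θ (tf (ι1 i j)) = Θ (tf (ι2 i j)) := by
    intro i j
    rw [← sub_eq_zero, ← map_sub]
    apply hΘ0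
    have h1 : ∀ l, ∃ N, ∀ k, N < k → ι1 i j l k = ι2 i j l k := by
      intro l
      obtain ⟨N, hN⟩ := heq n (i l) (j l)
      refine ⟨N, fun k hk => ?_⟩
      have h2 := hN k hk
      rw [Pi.sub_apply, sub_eq_zero] at h2
      rw [hι1, hι2]
      simp only [one_mul]
      exact h2
    choose N hN using h1
    refine ⟨Finset.univ.sup N, fun k hk => ?_⟩
    rw [Pi.sub_apply, sub_eq_zero]
    unfold tf
    congr 1
    funext l
    exact hN l k ((Finset.le_sup (Finset.mem_univ l)).trans_lt hk)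
  have key : ∑ i : Fin m → Om n, ∑ j : Fin m → Om n, Θ (tf (ι1 i j)) i j
      = ∑ i : Fin m → Om n, ∑ j : Fin m → Om n, Θ (tf (ι2 i j)) i j := by
    refine Finset.sum_congr rfl fun i _ => Finset.sum_congr rfl fun j _ => ?_
    rw [hdiff]
  rw [hι1, hι2] at key
  rw [expand_frm Θ (fun _ => 1) (a n) (ξ n) (η n),
    expand_frm Θ (fun b => (c n b : ℂ)) (fun b => Fm (f n b)) (ξ' n) (η' n)] at key
  -- the left side
  have hC0 : ∀ b, 0 ≤ C n b := fun b => ((ha n b).1 0).1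
  have hc0 : ∀ b, 0 ≤ c n b := fun b => (hf n b).1
  have left : ‖∑ β : Fin m → Fin (B n), (∏ _l : Fin m, (1 : ℂ)) * frm (Θ (tf (fun l => a n (β l))))
      (fun j => ∏ l, ξ n (β l) (j l)) (fun i => ∏ l, η n (β l) (i l))‖
      ≤ (1 + K) * (∑ b, C n b) ^ m := by
    rw [← sum_prod_pow, Finset.mul_sum]
    refine (norm_sum_le _ _).trans (Finset.sum_le_sum fun β _ => ?_)
    rw [Finset.prod_const_one, one_mul]
    exact hΘb _ (fun l => C n (β l)) (fun l => Or.inl (Set.mem_iUnion.2 ⟨n, β l, rfl⟩))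
      (fun l => (ha n (β l)).1) _ _
      (Pool.Agent.Helper91.KCA.UB_tens _ fun l => (ha n (β l)).2.1)
      (Pool.Agent.Helper91.KCA.UB_tens _ fun l => (ha n (β l)).2.2)
  -- the right side
  set Q : ℂ := ∑ l, (c n l : ℂ) * frm (Fm (f n l) n) (ξ' n l) (η' n l) with hQ
  have right : ‖Q ^ m - ∑ β : Fin m → Fin (L n), (∏ l, (c n (β l) : ℂ)) *
      frm (Θ (tf (fun l => Fm (f n (β l)))))
      (fun j => ∏ l, ξ' n (β l) (j l)) (fun i => ∏ l, η' n (β l) (i l))‖
      ≤ (ε ^ m / 2) * (∑ b, c n b) ^ m := by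
    rw [hQ, ← sum_prod_pow, ← sum_prod_pow, Finset.mul_sum, ← Finset.sum_sub_distrib]
    refine (norm_sum_le _ _).trans (Finset.sum_le_sum fun β _ => ?_)
    have e1 : ∏ l, ((c n (β l) : ℂ) * frm (Fm (f n (β l)) n) (ξ' n (β l)) (η' n (β l)))
        = (∏ l, (c n (β l) : ℂ)) * frm (tf (fun l => Fm (f n (β l))) n)
          (fun j => ∏ l, ξ' n (β l) (j l)) (fun i => ∏ l, η' n (β l) (i l)) := by
      rw [Finset.prod_mul_distrib]
      congr 1
      exact (Pool.Agent.Helper91.KCA.frm_tens (fun l => Fm (f n (β l)) n)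
        (fun l => ξ' n (β l)) (fun l => η' n (β l))).symm
    rw [e1, hΘ, frm_sub, ← mul_sub, sub_sub_cancel, norm_mul]
    have e2 : ‖∏ l, (c n (β l) : ℂ)‖ = ∏ l, c n (β l) := by
      rw [← Complex.ofReal_prod, Complex.norm_real, Real.norm_of_nonneg
        (Finset.prod_nonneg fun l _ => hc0 _)]
    rw [e2, mul_comm]
    refine mul_le_mul_of_nonneg_right ?_ (Finset.prod_nonneg fun l _ => hc0 _)
    exact hn (fun l => f n (β l)) _ _
      (Pool.Agent.Helper91.KCA.UB_tens _ fun l => (hf n (β l)).2.1)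
      (Pool.Agent.Helper91.KCA.UB_tens _ fun l => (hf n (β l)).2.2)
  rw [← key] at right
  set X : ℂ := ∑ β : Fin m → Fin (B n), (∏ _l : Fin m, (1 : ℂ)) * frm (Θ (tf (fun l => a n (β l))))
      (fun j => ∏ l, ξ n (β l) (j l)) (fun i => ∏ l, η n (β l) (i l)) with hX
  have hQm : ‖Q‖ ^ m ≤ (1 + K) * (∑ b, C n b) ^ m + (ε ^ m / 2) * (∑ b, c n b) ^ m := by
    rw [← norm_pow]
    have : Q ^ m = X + (Q ^ m - X) := by ring
    rw [this]
    exact (norm_add_le _ _).trans (add_le_add left right)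
  set ν : ℝ := ∑ b, C n b with hν
  set μ : ℝ := ∑ b, c n b with hμ
  have hν0 : 0 ≤ ν := Finset.sum_nonneg fun b _ => hC0 b
  have hμ0 : 0 ≤ μ := Finset.sum_nonneg fun b _ => hc0 b
  have hQre : D * ν + ε * μ < ‖Q‖ := by
    refine (hlt n).trans_le ?_
    have e3 : ∑ l, c n l * (frm (Fm (f n l) n) (ξ' n l) (η' n l)).re = Q.re := by
      rw [hQ, Complex.re_sum]
      refine Finset.sum_congr rfl fun l _ => ?_
      rw [Complex.re_ofReal_mul]
    rw [e3]
    exact Complex.re_le_norm Q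
  rcases hμ0.eq_or_lt with hμ1 | hμ1
  · -- all coefficients vanish
    have hcz : ∀ b, c n b = 0 := by
      have := (Finset.sum_eq_zero_iff_of_nonneg (fun b (_ : b ∈ Finset.univ) => hc0 b)).1 hμ1.symm
      intro b
      exact this b (Finset.mem_univ b)
    have hQ0 : Q = 0 := by
      rw [hQ]
      refine Finset.sum_eq_zero fun l _ => ?_
      rw [hcz l]; simp
    rw [hQ0, norm_zero] at hQre
    have hD0 : 0 ≤ D := by rw [hD]; norm_num
    nlinarith [mul_nonneg hD0 hν0]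
  · have hD0 : 0 ≤ D := by rw [hD]; norm_num
    have h1 : (D * ν) ^ m + (ε * μ) ^ m ≤ (D * ν + ε * μ) ^ m :=
      pow_add_pow_le (mul_nonneg hD0 hν0) (mul_nonneg hε0.le hμ0) (by omega)
    have h2 : (D * ν + ε * μ) ^ m ≤ ‖Q‖ ^ m :=
      pow_le_pow_left₀ (add_nonneg (mul_nonneg hD0 hν0) (mul_nonneg hε0.le hμ0)) hQre.le m
    have h3 : (1 + K) * ν ^ m ≤ D ^ m * ν ^ m :=
      mul_le_mul_of_nonneg_right hDm (pow_nonneg hν0 m)
    rw [mul_pow, mul_pow] at h1
    have h4 : 0 < ε ^ m * μ ^ m := mul_pos (pow_pos hε0 m) (pow_pos hμ1 m)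
    have h5 : ε ^ m / 2 * μ ^ m = ε ^ m * μ ^ m / 2 := by ring
    rw [h5] at hQm
    have fin : ∀ a b e : ℝ, a + e ≤ b + e / 2 → b ≤ a → 0 < e → False := by
      intro a b e h1 h2 h3
      linarith
    exact fin _ _ _ (h1.trans (h2.trans hQm)) h3 h4

end Pool.Agent.Compl
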