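import Mathlib

/-! # Notation for the non-complementation of the compact operators in a separable C*-algebra -/

set_option autoImplicit false

namespace Pool.Agent.Compl

open scoped ComplexConjugate BigOperators

/-- The Hilbert space `ℓ²`. -/
abbrev L2 : Type := lp (fun _ : ℕ => ℂ) 2

/-- The bounded operators on `ℓ²`. -/
abbrev BL : Type := L2 →L[ℂ] L2

/-- The standard basis vectors of `ℓ²`. -/
noncomputable def dl (k : ℕ) : L2 := lp.single 2 k (1 : ℂ)

/-- `ξ` is in the unit ball of `ℓ²(X)`. -/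
def UB {X : Type*} [Fintype X] (ξ : X → ℂ) : Prop := ∑ i, ‖ξ i‖ ^ 2 ≤ 1

/-- The matrix `M` has operator norm at most `C`. -/
def OpBd {X : Type*} [Fintype X] (M : Matrix X X ℂ) (C : ℝ) : Prop :=
  0 ≤ C ∧ ∀ ξ : X → ℂ, ∑ i, ‖∑ j, M i j * ξ j‖ ^ 2 ≤ C ^ 2 * ∑ j, ‖ξ j‖ ^ 2

/-- `⟨M ξ, η⟩` -/
noncomputable def frm {X : Type*} [Fintype X] (M : Matrix X X ℂ) (ξ η : X → ℂ) : ℂ :=
  ∑ i, ∑ j, conj (η i) * M i j * ξ j

/-- The tensor product of the matrices `a l`. -/
def tens {X : Type*} {m : ℕ} (a : Fin m → Matrix X X ℂ) : Matrix (Fin m → X) (Fin m → X) ℂ :=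
  fun i j => ∏ l, a l (i l) (j l)

/-- The matrix of the operator `T` on the span of the basis vectors `dl (e x)`, `x : X`. -/
noncomputable def cut {X : Type*} (e : X → ℕ) (T : BL) : Matrix X X ℂ :=
  fun i j => (T (dl (e j)) : ∀ _ : ℕ, ℂ) (e i)

end Pool.Agent.Compl
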