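import Pool.Agent.Compl.Rigid
import Pool.Agent.Helper91.KCA
import Pool.Agent.Helper23.KC.Hahn

/-! # Certificates and the expansion of their tensor powers -/

set_option autoImplicit false

namespace Pool.Agent.Compl

open scoped ComplexConjugate BigOperators

/-- a family is bounded by `C` -/
def bd (a : Fam) (C : ℝ) : Prop := ∀ k, OpBd (a k) C

/-- finitely supported families -/
def fin0 : Submodule ℂ Fam where
  carrier := {a | ∃ N, ∀ k, N < k → a k = 0}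
  zero_mem' := ⟨0, fun _ _ => rfl⟩
  add_mem' := by
    rintro a b ⟨N, hN⟩ ⟨M, hM⟩
    refine ⟨max N M, fun k hk => ?_⟩
    rw [Pi.add_apply, hN k ((le_max_left _ _).trans_lt hk), hM k ((le_max_right _ _).trans_lt hk),
      add_zero]
  smul_mem' := by
    rintro c a ⟨N, hN⟩
    refine ⟨N, fun k hk => ?_⟩
    rw [Pi.smul_apply, hN k hk, smul_zero]

lemma bounded_of_finite {X : ℕ → Type*} [∀ k, Fintype (X k)] (a : ∀ k, Matrix (X k) (X k) ℂ)
    (h : ∃ N, ∀ k, N < k → a k = 0) : ∃ C, ∀ k, OpBd (a k) C := by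
  obtain ⟨N, hN⟩ := h
  choose C hC using fun k => opBd_exists (a k)
  refine ⟨∑ k ∈ Finset.range (N + 1), C k, fun k => ?_⟩
  have h0 : 0 ≤ ∑ k ∈ Finset.range (N + 1), C k := Finset.sum_nonneg fun k _ => (hC k).1
  by_cases hk : N < k
  · rw [hN k hk]
    exact opBd_mono opBd_zero h0
  · exact opBd_mono (hC k) (Finset.single_le_sum (f := C) (fun k _ => (hC k).1)
      (Finset.mem_range.2 (by omega)))

lemma norm_fct_le (i : Fin 5) (ω : G) : ‖fct i ω‖ ≤ 1 := by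
  have h1 : ∀ z : Circle, |(z : ℂ).re| ≤ 1 := fun z => by
    have := Complex.abs_re_le_norm (z : ℂ)
    rwa [Circle.norm_coe] at this
  have h2 : ∀ z : Circle, |(z : ℂ).im| ≤ 1 := fun z => by
    have := Complex.abs_im_le_norm (z : ℂ)
    rwa [Circle.norm_coe] at this
  fin_cases i
  · change ‖(1 : ℂ)‖ ≤ 1
    simp
  · change ‖(((ω.1 : ℂ).re : ℝ) : ℂ)‖ ≤ 1
    rw [Complex.norm_real]; exact h1 _
  · change ‖(((ω.1 : ℂ).im : ℝ) : ℂ)‖ ≤ 1
    rw [Complex.norm_real]; exact h2 _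
  · change ‖(((ω.2 : ℂ).re : ℝ) : ℂ)‖ ≤ 1
    rw [Complex.norm_real]; exact h1 _
  · change ‖(((ω.2 : ℂ).im : ℝ) : ℂ)‖ ≤ 1
    rw [Complex.norm_real]; exact h2 _

lemma bd_Fm (i : FI) : bd (Fm i) 1 := by
  intro k
  rcases i with i | j
  · exact opBd_diagonal _ 1 zero_le_one (fun x => norm_fct_le i x.1)
  · exact opBd_pm j k

/-- The certificates given by the Hahn-Banach theorem and rigidity. -/
theorem certificate (n : ℕ) :
    ∃ (B L : ℕ) (a : Fin B → Fam) (C : Fin B → ℝ) (ξ η : Fin B → Om n → ℂ) (f : Fin L → FI)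
      (c : Fin L → ℝ) (ξ' η' : Fin L → Om n → ℂ),
      (∀ b, bd (a b) (C b) ∧ UB (ξ b) ∧ UB (η b)) ∧ (∀ l, 0 ≤ c l ∧ UB (ξ' l) ∧ UB (η' l)) ∧
      (∀ i j, ∑ b, (ξ b j * conj (η b i)) • a b
        - ∑ l, ((c l : ℂ) * (ξ' l j * conj (η' l i))) • Fm (f l) ∈ fin0) ∧
      (1 + 1 / 10 ^ 6) * ∑ b, C b + 1 / 10 ^ 6 * ∑ l, c l
        < ∑ l, c l * (frm (Fm (f l) n) (ξ' l) (η' l)).re := by
  rcases Pool.Agent.Helper23.KC.hahn (V := Fam) (X := Om n) bd (fun a C h => (h 0).1)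
    (fun k => opBd_zero) (fun a C c h k => opBd_smul c (h k))
    (fun a b C D ha hb k => opBd_add (ha k) (hb k)) fin0 (fun a ha => bounded_of_finite a ha)
    Fm (fun i => ⟨1, bd_Fm i⟩) (fun i => Fm i n) (1 + 1 / 10 ^ 6) (1 / 10 ^ 6) (by norm_num)
    (by norm_num) with h | h
  · obtain ⟨T, h0, hb, hF⟩ := h
    exact (rigidity n T (fun a ha => h0 a ha) hb hF).elim
  · exact h

/-- tensor products of families -/
def tf {m : ℕ} (g : Fin m → Fam) : ∀ k, Matrix (Fin m → Om k) (Fin m → Om k) ℂ :=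
  fun k => tens fun l => g l k

lemma tf_bd {m : ℕ} (g : Fin m → Fam) (C : Fin m → ℝ) (h : ∀ l, bd (g l) (C l)) (k : ℕ) :
    OpBd (tf g k) (∏ l, C l) :=
  Pool.Agent.Helper91.KCA.tens_opBd _ _ fun l => h l k

lemma expand {m B : ℕ} (s : Fin m → Fin B → ℂ) (a : Fin B → Fam) :
    tf (fun l => ∑ b, s l b • a b)
      = ∑ β : Fin m → Fin B, (∏ l, s l (β l)) • tf (fun l => a (β l)) := by
  funext k
  ext i j
  have e1 : ∀ l, (∑ b, s l b • a b) k (i l) (j l) = ∑ b, s l b * a b k (i l) (j l) := by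
    intro l
    rw [Finset.sum_apply, Matrix.sum_apply]
    rfl
  change ∏ l, (∑ b, s l b • a b) k (i l) (j l) = _
  rw [Finset.sum_apply, Matrix.sum_apply]
  simp_rw [e1]
  rw [Finset.prod_univ_sum, Fintype.piFinset_univ]
  refine Finset.sum_congr rfl fun β _ => ?_
  rw [Finset.prod_mul_distrib]
  rfl

/-- The value of the tensor power of `∑ c_b a_b ⊗ ξ_b ⊗ η_b`. -/
lemma expand_frm {m B n : ℕ}
    (Θ : (∀ k, Matrix (Fin m → Om k) (Fin m → Om k) ℂ) →ₗ[ℂ]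
      Matrix (Fin m → Om n) (Fin m → Om n) ℂ)
    (c : Fin B → ℂ) (a : Fin B → Fam) (ξ η : Fin B → Om n → ℂ) :
    ∑ i : Fin m → Om n, ∑ j : Fin m → Om n,
      Θ (tf (fun l => ∑ b, (c b * (ξ b (j l) * conj (η b (i l)))) • a b)) i j
      = ∑ β : Fin m → Fin B, (∏ l, c (β l)) * frm (Θ (tf (fun l => a (β l))))
        (fun j => ∏ l, ξ (β l) (j l)) (fun i => ∏ l, η (β l) (i l)) := by
  have e1 : ∀ i j : Fin m → Om n,
      Θ (tf (fun l => ∑ b, (c b * (ξ b (j l) * conj (η b (i l)))) • a b)) i j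
      = ∑ β : Fin m → Fin B, (∏ l, c (β l)) * (conj (∏ l, η (β l) (i l))
        * Θ (tf (fun l => a (β l))) i j * ∏ l, ξ (β l) (j l)) := by
    intro i j
    rw [expand (fun l b => c b * (ξ b (j l) * conj (η b (i l)))) a, map_sum, Matrix.sum_apply]
    refine Finset.sum_congr rfl fun β _ => ?_
    rw [map_smul, Matrix.smul_apply, smul_eq_mul, Finset.prod_mul_distrib,
      Finset.prod_mul_distrib, map_prod]
    ring
  simp_rw [e1]
  have e2 : ∀ i : Fin m → Om n, ∑ j : Fin m → Om n, ∑ β : Fin m → Fin B,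
      (∏ l, c (β l)) * (conj (∏ l, η (β l) (i l))
        * Θ (tf (fun l => a (β l))) i j * ∏ l, ξ (β l) (j l))
      = ∑ β : Fin m → Fin B, ∑ j : Fin m → Om n, (∏ l, c (β l)) * (conj (∏ l, η (β l) (i l))
        * Θ (tf (fun l => a (β l))) i j * ∏ l, ξ (β l) (j l)) := fun i => Finset.sum_comm
  simp_rw [e2]
  rw [Finset.sum_comm]
  refine Finset.sum_congr rfl fun β _ => ?_
  unfold frm
  rw [Finset.mul_sum]
  refine Finset.sum_congr rfl fun i _ => ?_
  rw [Finset.mul_sum]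

end Pool.Agent.Compl
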