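import Pool.Agent.Compl.Torus

/-! # There is no approximately invariant family of approximate point means on the torus -/

set_option autoImplicit false

namespace Pool.Agent.Compl

open Real

/-- The argument of a point of the circle. -/
noncomputable def ag (z : Circle) : ℝ := Complex.arg (z : ℂ)

lemma exp_ag (z : Circle) : Circle.exp (ag z) = z := Circle.exp_arg z

lemma ag_exp {x : ℝ} (h1 : -π < x) (h2 : x ≤ π) : ag (Circle.exp x) = x := Circle.arg_exp h1 h2

lemma ag_inv {z : Circle} (h : |ag z| < π / 4) : ag (z⁻¹) = - ag z := by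
  rw [abs_lt] at h
  have hp := Real.pi_pos
  have : z⁻¹ = Circle.exp (- ag z) := by rw [Circle.exp_neg, exp_ag]
  rw [this, ag_exp] <;> linarith [h.1, h.2]

lemma ag_mul3 {z w : Circle} (hz : |ag z| < π / 4) (hw : |ag w| < π / 4) :
    ag (z * w ^ 3) = ag z + 3 * ag w := by
  rw [abs_lt] at hz hw
  have hp := Real.pi_pos
  have : z * w ^ 3 = Circle.exp (ag z + 3 * ag w) := by
    have h3 : (3 : ℝ) * ag w = (3 : ℕ) • ag w := by simp
    rw [Circle.exp_add, h3, Circle.exp_nsmul, exp_ag, exp_ag]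
  rw [this, ag_exp] <;> linarith [hz.1, hz.2, hw.1, hw.2]

lemma ag_one_iff {z : Circle} (h : ag z = 0) : z = 1 := by
  rw [← exp_ag z, h, Circle.exp_zero]

lemma re_mul_add (z w : Circle) :
    (w : ℂ).re * (z : ℂ).re + (w : ℂ).im * (z : ℂ).im = Real.cos (ag (z / w)) := by
  have h1 : Real.cos (ag (z / w)) = ((z / w : Circle) : ℂ).re := by
    have hne : ((z / w : Circle) : ℂ) ≠ 0 := Circle.coe_ne_zero _
    unfold ag
    rw [Complex.cos_arg hne, Circle.norm_coe, div_one]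
  rw [h1, div_eq_mul_inv, Circle.coe_mul, Circle.coe_inv_eq_conj]
  simp [Complex.mul_re]
  ring

/-- `|arg u₁| ≤ |arg u₂|` -/
def V1 (u : G) : Prop := |ag u.1| ≤ |ag u.2|

/-- `|arg u₁| > |arg u₂|` -/
def V2 (u : G) : Prop := ¬ V1 u

/-- One of the coordinates of `u` is far from `1`. -/
def far (u : G) : Prop := π / 4 ≤ |ag u.1| ∨ π / 4 ≤ |ag u.2|

lemma abs_arith1 {a b : ℝ} (h : |a + 3 * b| ≤ |b|) (h0 : ¬ (a = 0 ∧ b = 0)) : |b| < |a| := by
  rcases abs_cases (a + 3 * b) with h1 | h1 <;> rcases abs_cases b with h2 | h2 <;>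
    rcases abs_cases a with h3 | h3 <;>
    (by_contra hc; push Not at hc; apply h0; constructor <;> linarith)

lemma abs_arith2 {a b : ℝ} (h : |a + 3 * b| ≤ |b|) (h' : |a - 3 * b| ≤ |b|) : a = 0 ∧ b = 0 := by
  rw [abs_le] at h h'
  rcases abs_cases b with h2 | h2 <;> constructor <;> linarith [h.1, h.2, h'.1, h'.2]

/-- the images of a near point -/
lemma V1_r0 {u : G} (h : ¬ far u) : V1 (rr 0 u) ↔ |ag u.1 + 3 * ag u.2| ≤ |ag u.2| := by
  unfold far at h; push Not at h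
  change |ag (u.1 * u.2 ^ 3)| ≤ |ag (u.2⁻¹)| ↔ _
  rw [ag_mul3 h.1 h.2, ag_inv h.2, abs_neg]

lemma V1_r0r1 {u : G} (h : ¬ far u) : V1 (rr 0 (rr 1 u)) ↔ |ag u.1 - 3 * ag u.2| ≤ |ag u.2| := by
  unfold far at h; push Not at h
  change |ag (u.1 * (u.2⁻¹) ^ 3)| ≤ |ag ((u.2⁻¹)⁻¹)| ↔ _
  have h2 : |ag (u.2⁻¹)| < π / 4 := by rw [ag_inv h.2, abs_neg]; exact h.2
  rw [ag_mul3 h.1 h2, ag_inv h.2, inv_inv]
  have : ag u.1 + 3 * -ag u.2 = ag u.1 - 3 * ag u.2 := by ring
  rw [this]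

lemma V2_r2 {u : G} (h : ¬ far u) : V2 (rr 2 u) ↔ |ag u.2 + 3 * ag u.1| < |ag u.1| := by
  unfold far at h; push Not at h
  change ¬ (|ag (u.1⁻¹)| ≤ |ag (u.1 ^ 3 * u.2)|) ↔ _
  rw [mul_comm, ag_mul3 h.2 h.1, ag_inv h.1, abs_neg, not_le]

lemma V2_r2r1 {u : G} (h : ¬ far u) : V2 (rr 2 (rr 1 u)) ↔ |ag u.2 - 3 * ag u.1| < |ag u.1| := by
  unfold far at h; push Not at h
  change ¬ (|ag (u.1⁻¹)| ≤ |ag (u.1 ^ 3 * u.2⁻¹)|) ↔ _
  have h2 : |ag (u.2⁻¹)| < π / 4 := by rw [ag_inv h.2, abs_neg]; exact h.2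
  rw [mul_comm, ag_mul3 h2 h.1, ag_inv h.1, ag_inv h.2, abs_neg, not_le]
  have : -ag u.2 + 3 * ag u.1 = -(ag u.2 - 3 * ag u.1) := by ring
  rw [this, abs_neg]

lemma u_ne {u : G} (hu : u ≠ 1) : ¬ (ag u.1 = 0 ∧ ag u.2 = 0) := by
  rintro ⟨h1, h2⟩
  apply hu
  ext1
  · exact ag_one_iff h1
  · exact ag_one_iff h2

/-- the translated indicator function -/
noncomputable def ind (V : G → Prop) (y : G) : G → ℝ := by
  classical exact fun ω => if V (ω / y) then 1 else 0

lemma ind_of {V : G → Prop} {y ω : G} (h : V (ω / y)) : ind V y ω = 1 := by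
  unfold ind; exact if_pos h

lemma ind_of_not {V : G → Prop} {y ω : G} (h : ¬ V (ω / y)) : ind V y ω = 0 := by
  unfold ind; exact if_neg h

lemma ind_cases (V : G → Prop) (y ω : G) : (V (ω / y) ∧ ind V y ω = 1) ∨ (¬ V (ω / y) ∧ ind V y ω = 0) := by
  by_cases h : V (ω / y)
  · exact Or.inl ⟨h, ind_of h⟩
  · exact Or.inr ⟨h, ind_of_not h⟩

lemma ind_nonneg (V : G → Prop) (y ω : G) : 0 ≤ ind V y ω := by
  rcases ind_cases V y ω with h | h <;> rw [h.2]; exact zero_le_one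

lemma ind_le_one (V : G → Prop) (y ω : G) : ind V y ω ≤ 1 := by
  rcases ind_cases V y ω with h | h <;> rw [h.2]; exact zero_le_one

lemma key1 (y ω : G) (h : ω ≠ y) :
    0 ≤ ind V2 y ω + 2 * ind far y ω - ind (fun u => V1 (rr 0 u)) y ω
      - ind (fun u => V1 (rr 0 (rr 1 u))) y ω := by
  have hu : ω / y ≠ 1 := fun h1 => h (div_eq_one.1 h1)
  have i1 := ind_nonneg V2 y ω
  have i3 := ind_le_one (fun u => V1 (rr 0 u)) y ω
  have i4 := ind_le_one (fun u => V1 (rr 0 (rr 1 u))) y ω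
  rcases ind_cases far y ω with ⟨hf, hf'⟩ | ⟨hf, hf'⟩
  · rw [hf']; linarith
  · rw [hf']
    have hne := u_ne hu
    rcases ind_cases (fun u => V1 (rr 0 u)) y ω with ⟨ha, ha'⟩ | ⟨ha, ha'⟩ <;>
    rcases ind_cases (fun u => V1 (rr 0 (rr 1 u))) y ω with ⟨hb, hb'⟩ | ⟨hb, hb'⟩
    · exact absurd (abs_arith2 ((V1_r0 hf).1 ha) ((V1_r0r1 hf).1 hb)) hne
    · have hV : V2 (ω / y) := not_le.2 (abs_arith1 ((V1_r0 hf).1 ha) hne)
      rw [ha', hb', ind_of hV]; norm_num
    · have hV : V2 (ω / y) := by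
        refine not_le.2 (abs_arith1 (a := ag (ω / y).1) (b := - ag (ω / y).2) ?_ ?_ |>.trans_eq' ?_)
        · have := (V1_r0r1 hf).1 hb
          rw [abs_neg]
          convert this using 2
          ring
        · rintro ⟨h1, h2⟩
          exact hne ⟨h1, by linarith⟩
        · rw [abs_neg]
      rw [ha', hb', ind_of hV]; norm_num
    · rw [ha', hb']; linarith

lemma key2 (y ω : G) (h : ω ≠ y) :
    0 ≤ ind V1 y ω + 2 * ind far y ω - ind (fun u => V2 (rr 2 u)) y ω
      - ind (fun u => V2 (rr 2 (rr 1 u))) y ω := by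
  have hu : ω / y ≠ 1 := fun h1 => h (div_eq_one.1 h1)
  have i1 := ind_nonneg V1 y ω
  have i3 := ind_le_one (fun u => V2 (rr 2 u)) y ω
  have i4 := ind_le_one (fun u => V2 (rr 2 (rr 1 u))) y ω
  rcases ind_cases far y ω with ⟨hf, hf'⟩ | ⟨hf, hf'⟩
  · rw [hf']; linarith
  · rw [hf']
    have hne := u_ne hu
    rcases ind_cases (fun u => V2 (rr 2 u)) y ω with ⟨ha, ha'⟩ | ⟨ha, ha'⟩ <;>
    rcases ind_cases (fun u => V2 (rr 2 (rr 1 u))) y ω with ⟨hb, hb'⟩ | ⟨hb, hb'⟩
    · have := abs_arith2 ((V2_r2 hf).1 ha).le ((V2_r2r1 hf).1 hb).le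
      exact absurd ⟨this.2, this.1⟩ hne
    · have hV : V1 (ω / y) := le_of_lt (abs_arith1 ((V2_r2 hf).1 ha).le (fun h => hne ⟨h.2, h.1⟩))
      rw [ha', hb', ind_of hV]; norm_num
    · have hV : V1 (ω / y) := by
        have h1 : |ag (ω / y).2 + 3 * (- ag (ω / y).1)| ≤ |- ag (ω / y).1| := by
          have h4 := ((V2_r2r1 hf).1 hb).le
          have e : ag (ω / y).2 + 3 * (- ag (ω / y).1) = ag (ω / y).2 - 3 * ag (ω / y).1 := by ring
          rw [e, abs_neg]
          exact h4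
        have h2 := abs_arith1 h1 (fun h => hne ⟨by linarith [h.2], h.1⟩)
        rw [abs_neg] at h2
        exact h2.le
      rw [ha', hb', ind_of hV]; norm_num
    · rw [ha', hb']; linarith

lemma ind_comp (V : G → Prop) (j : Fin 3) (y ω : G) :
    ind V (rr j y) (rr j ω) = ind (fun u => V (rr j u)) y ω := by
  have h : rr j ω / rr j y = rr j (ω / y) := (map_div (rr j) ω y).symm
  rcases ind_cases (fun u => V (rr j u)) y ω with ⟨ha, ha'⟩ | ⟨ha, ha'⟩
  · rw [ha', ind_of]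
    rw [h]; exact ha
  · rw [ha', ind_of_not]
    rw [h]; exact ha

theorem no_means (n : ℕ) (ε : ℝ) (hε : 0 < ε) (hε' : ε ≤ 1 / 10 ^ 4)
    (p : Om n → ((G → ℝ) →ₗ[ℝ] ℝ))
    (hpos : ∀ y f, (∀ ω, 0 ≤ f ω) → (∀ ω, f ω ≤ 1) → -(2 * ε) ≤ p y f)
    (hone : ∀ y, |p y (fun _ => 1) - 1| ≤ ε)
    (hvan : ∀ y f, (∀ ω, n + 1 < orderOf ω → f ω = 0) → p y f = 0)
    (hc1 : ∀ y, |p y (fun ω => (ω.1 : ℂ).re) - (y.1.1 : ℂ).re| ≤ ε)
    (hs1 : ∀ y, |p y (fun ω => (ω.1 : ℂ).im) - (y.1.1 : ℂ).im| ≤ ε)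
    (hc2 : ∀ y, |p y (fun ω => (ω.2 : ℂ).re) - (y.1.2 : ℂ).re| ≤ ε)
    (hs2 : ∀ y, |p y (fun ω => (ω.2 : ℂ).im) - (y.1.2 : ℂ).im| ≤ ε)
    (hinv : ∀ j y f, (∀ ω, 0 ≤ f ω) → (∀ ω, f ω ≤ 1) →
      |p y (fun ω => f (rr j ω)) - p (rO j n y) f| ≤ 1 / 20) : False := by
  classical
  -- near positivity in general form
  have pos' : ∀ y f (C : ℝ), 0 < C → (∀ ω, n + 1 < orderOf ω → 0 ≤ f ω ∧ f ω ≤ C) →
      -(2 * ε * C) ≤ p y f := by
    intro y f C hC hf
    let g : G → ℝ := fun ω => if n + 1 < orderOf ω then f ω / C else 0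
    have h1 : -(2 * ε) ≤ p y g := by
      apply hpos
      · intro ω
        change 0 ≤ if n + 1 < orderOf ω then f ω / C else 0
        split_ifs with h
        · exact div_nonneg (hf ω h).1 hC.le
        · exact le_rfl
      · intro ω
        change (if n + 1 < orderOf ω then f ω / C else 0) ≤ 1
        split_ifs with h
        · rw [div_le_one hC]; exact (hf ω h).2
        · exact zero_le_one
    have h2 : p y (f - C • g) = 0 := by
      apply hvan
      intro ω hω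
      have : g ω = f ω / C := if_pos hω
      simp only [Pi.sub_apply, Pi.smul_apply, smul_eq_mul, this]
      field_simp
      ring
    rw [map_sub, map_smul, smul_eq_mul, sub_eq_zero] at h2
    rw [h2]
    nlinarith
  -- concentration
  have hfar : ∀ y : Om n, p y (ind far y.1) ≤ 100 * ε := by
    intro y
    let q1 : G → ℝ := fun ω => (ω.1 : ℂ).re
    let q2 : G → ℝ := fun ω => (ω.1 : ℂ).im
    let q3 : G → ℝ := fun ω => (ω.2 : ℂ).re
    let q4 : G → ℝ := fun ω => (ω.2 : ℂ).im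
    let g : G → ℝ := (2 : ℝ) • (fun _ => (1 : ℝ)) - (y.1.1 : ℂ).re • q1 - (y.1.1 : ℂ).im • q2
      - (y.1.2 : ℂ).re • q3 - (y.1.2 : ℂ).im • q4 - (1 / 5 : ℝ) • ind far y.1
    have hg : ∀ ω, g ω = (1 - Real.cos (ag (ω / y.1).1)) + (1 - Real.cos (ag (ω / y.1).2))
        - (1 / 5) * ind far y.1 ω := by
      intro ω
      have e1 := re_mul_add ω.1 y.1.1
      have e2 := re_mul_add ω.2 y.1.2
      change 2 * 1 - (y.1.1 : ℂ).re * (ω.1 : ℂ).re - (y.1.1 : ℂ).im * (ω.1 : ℂ).im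
        - (y.1.2 : ℂ).re * (ω.2 : ℂ).re - (y.1.2 : ℂ).im * (ω.2 : ℂ).im
        - (1 / 5) * ind far y.1 ω = _
      change _ = (1 - Real.cos (ag (ω.1 / y.1.1))) + (1 - Real.cos (ag (ω.2 / y.1.2)))
        - (1 / 5) * ind far y.1 ω
      rw [← e1, ← e2]
      ring
    have hcos : ∀ z : Circle, π / 4 ≤ |ag z| → Real.cos (ag z) ≤ 4 / 5 := by
      intro z hz
      have h1 : |ag z| ≤ π := Complex.abs_arg_le_pi _
      have h2 : Real.cos |ag z| ≤ Real.cos (π / 4) :=
        Real.cos_le_cos_of_nonneg_of_le_pi (by positivity) h1 hz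
      rw [Real.cos_abs, Real.cos_pi_div_four] at h2
      have h3 : √2 ≤ 8 / 5 := by
        rw [Real.sqrt_le_left (by norm_num)]; norm_num
      linarith
    have hg0 : ∀ ω, 0 ≤ g ω := by
      intro ω
      rw [hg ω]
      have h1 := Real.cos_le_one (ag (ω / y.1).1)
      have h2 := Real.cos_le_one (ag (ω / y.1).2)
      rcases ind_cases far y.1 ω with ⟨ha, ha'⟩ | ⟨ha, ha'⟩
      · rw [ha']
        rcases ha with ha | ha
        · have := hcos _ ha
          linarith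
        · have := hcos _ ha
          linarith
      · rw [ha']
        linarith
    have hg4 : ∀ ω, g ω ≤ 4 := by
      intro ω
      rw [hg ω]
      have h1 := Real.neg_one_le_cos (ag (ω / y.1).1)
      have h2 := Real.neg_one_le_cos (ag (ω / y.1).2)
      have h3 := ind_nonneg far y.1 ω
      linarith
    have h1 := pos' y g 4 (by norm_num) (fun ω _ => ⟨hg0 ω, hg4 ω⟩)
    have h2 : p y g = 2 * p y (fun _ => (1 : ℝ)) - (y.1.1 : ℂ).re * p y q1
        - (y.1.1 : ℂ).im * p y q2 - (y.1.2 : ℂ).re * p y q3 - (y.1.2 : ℂ).im * p y q4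
        - (1 / 5) * p y (ind far y.1) := by
      simp only [g, map_sub, map_smul, smul_eq_mul]
    have n1 : (y.1.1 : ℂ).re ^ 2 + (y.1.1 : ℂ).im ^ 2 = 1 := by
      have := Circle.normSq_coe y.1.1
      rw [Complex.normSq_apply] at this
      nlinarith
    have n2 : (y.1.2 : ℂ).re ^ 2 + (y.1.2 : ℂ).im ^ 2 = 1 := by
      have := Circle.normSq_coe y.1.2
      rw [Complex.normSq_apply] at this
      nlinarith
    have key : ∀ a b : ℝ, a ^ 2 ≤ 1 → |b - a| ≤ ε → a ^ 2 - ε ≤ a * b := by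
      intro a b ha hb
      rw [abs_le] at hb
      have ha' : |a| ≤ 1 := by
        rw [← abs_one, ← sq_le_sq]; simpa using ha
      rw [abs_le] at ha'
      have : |a * (b - a)| ≤ ε := by
        rw [abs_mul]
        have h1 : |a| ≤ 1 := abs_le.2 ha'
        have h2 : |b - a| ≤ ε := abs_le.2 hb
        calc |a| * |b - a| ≤ 1 * ε := mul_le_mul h1 h2 (abs_nonneg _) zero_le_one
          _ = ε := one_mul _
      rw [abs_le] at this
      nlinarith [this.1]
    have k1 := key _ _ (by nlinarith [sq_nonneg (y.1.1 : ℂ).im]) (hc1 y)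
    have k2 := key _ _ (by nlinarith [sq_nonneg (y.1.1 : ℂ).re]) (hs1 y)
    have k3 := key _ _ (by nlinarith [sq_nonneg (y.1.2 : ℂ).im]) (hc2 y)
    have k4 := key _ _ (by nlinarith [sq_nonneg (y.1.2 : ℂ).re]) (hs2 y)
    have k5 := abs_le.1 (hone y)
    rw [h2] at h1
    linarith [k5.2]
  -- the averages
  let m : (G → Prop) → ℝ := fun V => ∑ y : Om n, p y (ind V y.1)
  let N : ℝ := Fintype.card (Om n)
  have hN : 0 < N := by
    have : 0 < Fintype.card (Om n) := Fintype.card_pos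
    exact Nat.cast_pos.2 this
  have hsum : ∀ c : ℝ, ∑ _y : Om n, c = N * c := by
    intro c
    rw [Finset.sum_const, Finset.card_univ, nsmul_eq_mul]
  have hm : ∀ (V : G → Prop) (j : Fin 3), |m (fun u => V (rr j u)) - m V| ≤ N * (1 / 20) := by
    intro V j
    have h1 : m V = ∑ y : Om n, p (rO j n y) (ind V (rO j n y).1) :=
      (Equiv.sum_comp (rO j n) (fun y => p y (ind V y.1))).symm
    rw [h1]
    change |∑ y : Om n, p y (ind (fun u => V (rr j u)) y.1) - _| ≤ _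
    rw [← Finset.sum_sub_distrib, ← hsum]
    refine (Finset.abs_sum_le_sum_abs _ _).trans (Finset.sum_le_sum fun y _ => ?_)
    have h2 := hinv j y (ind V (rO j n y).1) (ind_nonneg V _) (ind_le_one V _)
    have h3 : (fun ω => ind V (rO j n y).1 (rr j ω)) = ind (fun u => V (rr j u)) y.1 := by
      funext ω
      exact ind_comp V j y.1 ω
    rw [h3] at h2
    exact h2
  have hne : ∀ (y : Om n) (ω : G), n + 1 < orderOf ω → ω ≠ y.1 := by
    rintro y ω hω rfl
    rw [y.2] at hω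
    exact lt_irrefl _ hω
  -- first inequality
  have i1 : m (fun u => V1 (rr 0 u)) + m (fun u => V1 (rr 0 (rr 1 u)))
      ≤ m V2 + N * (2 * (100 * ε) + 2 * ε * 3) := by
    have hy : ∀ y : Om n, p y (ind (fun u => V1 (rr 0 u)) y.1)
        + p y (ind (fun u => V1 (rr 0 (rr 1 u))) y.1)
        ≤ p y (ind V2 y.1) + (2 * (100 * ε) + 2 * ε * 3) := by
      intro y
      have h1 := pos' y (ind V2 y.1 + (2 : ℝ) • ind far y.1 - ind (fun u => V1 (rr 0 u)) y.1
        - ind (fun u => V1 (rr 0 (rr 1 u))) y.1) 3 (by norm_num) (fun ω hω => ?_)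
      · simp only [map_sub, map_add, map_smul, smul_eq_mul] at h1
        have h2 := hfar y
        linarith
      · constructor
        · exact key1 y.1 ω (hne y ω hω)
        · have a1 := ind_le_one V2 y.1 ω
          have a2 := ind_le_one far y.1 ω
          have a3 := ind_nonneg (fun u => V1 (rr 0 u)) y.1 ω
          have a4 := ind_nonneg (fun u => V1 (rr 0 (rr 1 u))) y.1 ω
          simp only [Pi.sub_apply, Pi.add_apply, Pi.smul_apply, smul_eq_mul]
          linarith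
    have := Finset.sum_le_sum (fun (y : Om n) (_ : y ∈ Finset.univ) => hy y)
    rw [Finset.sum_add_distrib, Finset.sum_add_distrib, hsum] at this
    exact this
  have i2 : m (fun u => V2 (rr 2 u)) + m (fun u => V2 (rr 2 (rr 1 u)))
      ≤ m V1 + N * (2 * (100 * ε) + 2 * ε * 3) := by
    have hy : ∀ y : Om n, p y (ind (fun u => V2 (rr 2 u)) y.1)
        + p y (ind (fun u => V2 (rr 2 (rr 1 u))) y.1)
        ≤ p y (ind V1 y.1) + (2 * (100 * ε) + 2 * ε * 3) := by
      intro y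
      have h1 := pos' y (ind V1 y.1 + (2 : ℝ) • ind far y.1 - ind (fun u => V2 (rr 2 u)) y.1
        - ind (fun u => V2 (rr 2 (rr 1 u))) y.1) 3 (by norm_num) (fun ω hω => ?_)
      · simp only [map_sub, map_add, map_smul, smul_eq_mul] at h1
        have h2 := hfar y
        linarith
      · constructor
        · exact key2 y.1 ω (hne y ω hω)
        · have a1 := ind_le_one V1 y.1 ω
          have a2 := ind_le_one far y.1 ω
          have a3 := ind_nonneg (fun u => V2 (rr 2 u)) y.1 ω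
          have a4 := ind_nonneg (fun u => V2 (rr 2 (rr 1 u))) y.1 ω
          simp only [Pi.sub_apply, Pi.add_apply, Pi.smul_apply, smul_eq_mul]
          linarith
    have := Finset.sum_le_sum (fun (y : Om n) (_ : y ∈ Finset.univ) => hy y)
    rw [Finset.sum_add_distrib, Finset.sum_add_distrib, hsum] at this
    exact this
  have i3 : N * (1 - ε) ≤ m V1 + m V2 := by
    rw [← hsum]
    change _ ≤ ∑ y : Om n, p y (ind V1 y.1) + ∑ y : Om n, p y (ind V2 y.1)
    rw [← Finset.sum_add_distrib]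
    refine Finset.sum_le_sum fun y _ => ?_
    rw [← map_add]
    have : ind V1 y.1 + ind V2 y.1 = fun _ => (1 : ℝ) := by
      funext ω
      rw [Pi.add_apply]
      by_cases h : V1 (ω / y.1)
      · rw [ind_of h, ind_of_not (V := V2) (not_not.2 h)]; norm_num
      · rw [ind_of_not h, ind_of (V := V2) h]; norm_num
    rw [this]
    linarith [(abs_le.1 (hone y)).1]
  have e1 := abs_le.1 (hm V1 0)
  have e2 := abs_le.1 (hm (fun u => V1 (rr 0 u)) 1)
  have e3 := abs_le.1 (hm V2 2)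
  have e4 := abs_le.1 (hm (fun u => V2 (rr 2 u)) 1)
  have hNε : N * ε ≤ N * (1 / 10 ^ 4) := mul_le_mul_of_nonneg_left hε' hN.le
  nlinarith [e1.1, e2.1, e3.1, e4.1]

end Pool.Agent.Compl
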