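import Pool.Agent.Compl.Defs

/-! # Elementary facts on bounds for matrices and sesquilinear forms -/

set_option autoImplicit false

namespace Pool.Agent.Compl

open scoped ComplexConjugate BigOperators

section
variable {X : Type*} [Fintype X]

/-- the squared norm -/
noncomputable def sq2 (ξ : X → ℂ) : ℝ := ∑ i, ‖ξ i‖ ^ 2

lemma sq2_nonneg (ξ : X → ℂ) : 0 ≤ sq2 ξ := Finset.sum_nonneg fun _ _ => by positivity

lemma sq2_eq_norm (ξ : X → ℂ) : sq2 ξ = ‖(WithLp.toLp 2 ξ : EuclideanSpace ℂ X)‖ ^ 2 := by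
  rw [EuclideanSpace.norm_eq, Real.sq_sqrt (Finset.sum_nonneg fun _ _ => by positivity)]
  rfl

lemma norm_toLp (ξ : X → ℂ) : ‖(WithLp.toLp 2 ξ : EuclideanSpace ℂ X)‖ = √(sq2 ξ) := by
  rw [sq2_eq_norm, Real.sqrt_sq (norm_nonneg _)]

lemma sq2_smul (c : ℂ) (ξ : X → ℂ) : sq2 (c • ξ) = ‖c‖ ^ 2 * sq2 ξ := by
  unfold sq2
  rw [Finset.mul_sum]
  refine Finset.sum_congr rfl fun i _ => ?_
  rw [Pi.smul_apply, smul_eq_mul, norm_mul, mul_pow]

lemma sq2_eq_zero {ξ : X → ℂ} (h : sq2 ξ = 0) : ξ = 0 := by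
  funext i
  have h1 := (Finset.sum_eq_zero_iff_of_nonneg (fun i (_ : i ∈ Finset.univ) => by positivity)).1 h i
    (Finset.mem_univ i)
  simpa using h1

lemma opBd_iff (M : Matrix X X ℂ) (C : ℝ) :
    OpBd M C ↔ 0 ≤ C ∧ ∀ ξ : X → ℂ, √(sq2 (M.mulVec ξ)) ≤ C * √(sq2 ξ) := by
  unfold OpBd
  refine and_congr_right fun hC => forall_congr' fun ξ => ?_
  have h1 : ∑ i, ‖∑ j, M i j * ξ j‖ ^ 2 = sq2 (M.mulVec ξ) := rfl
  have h2 : ∑ j, ‖ξ j‖ ^ 2 = sq2 ξ := rfl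
  rw [h1, h2]
  constructor
  · intro h
    rw [Real.sqrt_le_left (mul_nonneg hC (Real.sqrt_nonneg _)), mul_pow,
      Real.sq_sqrt (sq2_nonneg _)]
    exact h
  · intro h
    have := (Real.sqrt_le_left (mul_nonneg hC (Real.sqrt_nonneg _))).1 h
    rw [mul_pow, Real.sq_sqrt (sq2_nonneg _)] at this
    exact this

lemma opBd_add {M N : Matrix X X ℂ} {C D : ℝ} (hM : OpBd M C) (hN : OpBd N D) :
    OpBd (M + N) (C + D) := by
  rw [opBd_iff] at *
  refine ⟨add_nonneg hM.1 hN.1, fun ξ => ?_⟩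
  rw [Matrix.add_mulVec, ← norm_toLp]
  have h1 := hM.2 ξ
  have h2 := hN.2 ξ
  rw [← norm_toLp (M.mulVec ξ)] at h1
  rw [← norm_toLp (N.mulVec ξ)] at h2
  have h3 := norm_add_le (WithLp.toLp 2 (M.mulVec ξ) : EuclideanSpace ℂ X)
    (WithLp.toLp 2 (N.mulVec ξ))
  rw [WithLp.toLp_add]
  linarith

lemma opBd_smul {M : Matrix X X ℂ} {C : ℝ} (c : ℂ) (hM : OpBd M C) :
    OpBd (c • M) (‖c‖ * C) := by
  refine ⟨mul_nonneg (norm_nonneg _) hM.1, fun ξ => ?_⟩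
  have h := hM.2 ξ
  have e : ∀ i, ‖∑ j, (c • M) i j * ξ j‖ ^ 2 = ‖c‖ ^ 2 * ‖∑ j, M i j * ξ j‖ ^ 2 := by
    intro i
    have : ∑ j, (c • M) i j * ξ j = c * ∑ j, M i j * ξ j := by
      rw [Finset.mul_sum]
      refine Finset.sum_congr rfl fun j _ => ?_
      rw [Matrix.smul_apply, smul_eq_mul, mul_assoc]
    rw [this, norm_mul, mul_pow]
  simp_rw [e]
  rw [← Finset.mul_sum, mul_pow, mul_assoc]
  exact mul_le_mul_of_nonneg_left h (by positivity)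

lemma opBd_zero : OpBd (0 : Matrix X X ℂ) 0 := by
  refine ⟨le_rfl, fun ξ => ?_⟩
  simp

lemma opBd_mono {M : Matrix X X ℂ} {C D : ℝ} (h : OpBd M C) (hCD : C ≤ D) : OpBd M D := by
  refine ⟨h.1.trans hCD, fun ξ => (h.2 ξ).trans ?_⟩
  have : C ^ 2 ≤ D ^ 2 := pow_le_pow_left₀ h.1 hCD 2
  exact mul_le_mul_of_nonneg_right this (Finset.sum_nonneg fun _ _ => by positivity)

/-- every matrix has some bound -/
lemma opBd_exists (M : Matrix X X ℂ) : ∃ C, OpBd M C := by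
  classical
  let L : EuclideanSpace ℂ X →L[ℂ] EuclideanSpace ℂ X :=
    LinearMap.toContinuousLinearMap (Matrix.toEuclideanLin M)
  refine ⟨‖L‖, ?_⟩
  rw [opBd_iff]
  refine ⟨norm_nonneg _, fun ξ => ?_⟩
  rw [← norm_toLp, ← norm_toLp]
  exact L.le_opNorm (WithLp.toLp 2 ξ)

lemma frm_add_left (M : Matrix X X ℂ) (ξ ξ' η : X → ℂ) :
    frm M (ξ + ξ') η = frm M ξ η + frm M ξ' η := by
  unfold frm
  rw [← Finset.sum_add_distrib]
  refine Finset.sum_congr rfl fun i _ => ?_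
  rw [← Finset.sum_add_distrib]
  refine Finset.sum_congr rfl fun j _ => ?_
  rw [Pi.add_apply]; ring

lemma frm_add_right (M : Matrix X X ℂ) (ξ η η' : X → ℂ) :
    frm M ξ (η + η') = frm M ξ η + frm M ξ η' := by
  unfold frm
  rw [← Finset.sum_add_distrib]
  refine Finset.sum_congr rfl fun i _ => ?_
  rw [← Finset.sum_add_distrib]
  refine Finset.sum_congr rfl fun j _ => ?_
  rw [Pi.add_apply, map_add]; ring

lemma frm_smul_left (M : Matrix X X ℂ) (c : ℂ) (ξ η : X → ℂ) :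
    frm M (c • ξ) η = c * frm M ξ η := by
  unfold frm
  rw [Finset.mul_sum]
  refine Finset.sum_congr rfl fun i _ => ?_
  rw [Finset.mul_sum]
  refine Finset.sum_congr rfl fun j _ => ?_
  rw [Pi.smul_apply, smul_eq_mul]; ring

lemma frm_smul_right (M : Matrix X X ℂ) (c : ℂ) (ξ η : X → ℂ) :
    frm M ξ (c • η) = conj c * frm M ξ η := by
  unfold frm
  rw [Finset.mul_sum]
  refine Finset.sum_congr rfl fun i _ => ?_
  rw [Finset.mul_sum]
  refine Finset.sum_congr rfl fun j _ => ?_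
  rw [Pi.smul_apply, smul_eq_mul, map_mul]; ring

lemma frm_add (M N : Matrix X X ℂ) (ξ η : X → ℂ) :
    frm (M + N) ξ η = frm M ξ η + frm N ξ η := by
  unfold frm
  rw [← Finset.sum_add_distrib]
  refine Finset.sum_congr rfl fun i _ => ?_
  rw [← Finset.sum_add_distrib]
  refine Finset.sum_congr rfl fun j _ => ?_
  rw [Matrix.add_apply]; ring

lemma frm_sub (M N : Matrix X X ℂ) (ξ η : X → ℂ) :
    frm (M - N) ξ η = frm M ξ η - frm N ξ η := by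
  unfold frm
  rw [← Finset.sum_sub_distrib]
  refine Finset.sum_congr rfl fun i _ => ?_
  rw [← Finset.sum_sub_distrib]
  refine Finset.sum_congr rfl fun j _ => ?_
  rw [Matrix.sub_apply]; ring

lemma frm_smul (c : ℂ) (M : Matrix X X ℂ) (ξ η : X → ℂ) :
    frm (c • M) ξ η = c * frm M ξ η := by
  unfold frm
  rw [Finset.mul_sum]
  refine Finset.sum_congr rfl fun i _ => ?_
  rw [Finset.mul_sum]
  refine Finset.sum_congr rfl fun j _ => ?_
  rw [Matrix.smul_apply, smul_eq_mul]; ring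

lemma frm_zero (ξ η : X → ℂ) : frm (0 : Matrix X X ℂ) ξ η = 0 := by
  simp [frm]

lemma frm_single [DecidableEq X] (M : Matrix X X ℂ) (x y : X) :
    frm M (Pi.single y 1) (Pi.single x 1) = M x y := by
  unfold frm
  rw [Finset.sum_eq_single x, Finset.sum_eq_single y]
  · simp
  · intro j _ hj
    rw [Pi.single_eq_of_ne hj, mul_zero]
  · intro h; exact absurd (Finset.mem_univ y) h
  · intro i _ hi
    refine Finset.sum_eq_zero fun j _ => ?_
    rw [Pi.single_eq_of_ne hi, map_zero, zero_mul, zero_mul]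
  · intro h; exact absurd (Finset.mem_univ x) h

lemma ub_zero : UB (0 : X → ℂ) := by
  unfold UB; simp

lemma ub_scale {ξ : X → ℂ} (h : 0 < sq2 ξ) : UB (((√(sq2 ξ))⁻¹ : ℂ) • ξ) := by
  have h1 : sq2 (((√(sq2 ξ))⁻¹ : ℂ) • ξ) = 1 := by
    rw [sq2_smul, norm_inv, Complex.norm_real, Real.norm_of_nonneg (Real.sqrt_nonneg _), inv_pow,
      Real.sq_sqrt h.le, inv_mul_cancel₀ h.ne']
  exact h1.le

/-- homogeneous form of a bound on the unit balls -/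
lemma frm_hom {M : Matrix X X ℂ} {K : ℝ} (h : ∀ ξ η, UB ξ → UB η → ‖frm M ξ η‖ ≤ K)
    (ξ η : X → ℂ) : ‖frm M ξ η‖ ≤ K * (√(sq2 ξ) * √(sq2 η)) := by
  rcases (sq2_nonneg ξ).eq_or_lt' with h1 | h1
  · have : ξ = (0 : ℂ) • ξ := by rw [zero_smul]; exact sq2_eq_zero h1
    rw [this, frm_smul_left, zero_mul, ← this, h1]
    simp
  rcases (sq2_nonneg η).eq_or_lt' with h2 | h2
  · have : η = (0 : ℂ) • η := by rw [zero_smul]; exact sq2_eq_zero h2
    rw [this, frm_smul_right, map_zero, zero_mul, ← this, h2]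
    simp
  have h3 := h _ _ (ub_scale h1) (ub_scale h2)
  have p1 : 0 < √(sq2 ξ) := Real.sqrt_pos.2 h1
  have p2 : 0 < √(sq2 η) := Real.sqrt_pos.2 h2
  rw [frm_smul_left, frm_smul_right, norm_mul, norm_mul, RCLike.norm_conj, norm_inv, norm_inv,
    Complex.norm_real, Complex.norm_real, Real.norm_of_nonneg (Real.sqrt_nonneg _),
    Real.norm_of_nonneg (Real.sqrt_nonneg _)] at h3
  have h4 : ‖frm M ξ η‖ = (√(sq2 ξ) * √(sq2 η)) *
      ((√(sq2 ξ))⁻¹ * ((√(sq2 η))⁻¹ * ‖frm M ξ η‖)) := by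
    field_simp
  rw [h4, mul_comm K]
  exact mul_le_mul_of_nonneg_left h3 (mul_pos p1 p2).le

/-- a form of a bounded matrix on unit vectors -/
lemma frm_le_of_opBd {M : Matrix X X ℂ} {C : ℝ} (h : OpBd M C) (ξ η : X → ℂ) (hξ : UB ξ)
    (hη : UB η) : ‖frm M ξ η‖ ≤ C := by
  have h1 : frm M ξ η = ∑ i, conj (η i) * (M.mulVec ξ) i := by
    unfold frm
    refine Finset.sum_congr rfl fun i _ => ?_
    change _ = conj (η i) * ∑ j, M i j * ξ j
    rw [Finset.mul_sum]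
    refine Finset.sum_congr rfl fun j _ => ?_
    ring
  have h2 : (∑ i, ‖η i‖ * ‖(M.mulVec ξ) i‖) ^ 2 ≤ (∑ i, ‖η i‖ ^ 2) * ∑ i, ‖(M.mulVec ξ) i‖ ^ 2 :=
    Finset.sum_mul_sq_le_sq_mul_sq _ _ _
  have h3 : ∑ i, ‖(M.mulVec ξ) i‖ ^ 2 ≤ C ^ 2 := by
    refine (h.2 ξ).trans ?_
    have : C ^ 2 * ∑ j, ‖ξ j‖ ^ 2 ≤ C ^ 2 * 1 := mul_le_mul_of_nonneg_left hξ (sq_nonneg _)
    linarith
  have h4 : ‖frm M ξ η‖ ≤ ∑ i, ‖η i‖ * ‖(M.mulVec ξ) i‖ := by
    rw [h1]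
    refine (norm_sum_le _ _).trans (Finset.sum_le_sum fun i _ => ?_)
    rw [norm_mul, RCLike.norm_conj]
  have h5 : (∑ i, ‖η i‖ * ‖(M.mulVec ξ) i‖) ^ 2 ≤ C ^ 2 := by
    refine h2.trans ?_
    calc (∑ i, ‖η i‖ ^ 2) * ∑ i, ‖(M.mulVec ξ) i‖ ^ 2 ≤ 1 * C ^ 2 :=
          mul_le_mul hη h3 (Finset.sum_nonneg fun _ _ => by positivity) zero_le_one
      _ = C ^ 2 := one_mul _
  exact h4.trans (abs_le_of_sq_le_sq' h5 h.1).2

end

end Pool.Agent.Compl
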