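import Pool.Agent.Compl.Means
import Pool.Agent.Compl.OpBd

/-! # Rigidity: no near contraction of the families fixes the generators and kills the finitely
supported families -/

set_option autoImplicit false

namespace Pool.Agent.Compl

open scoped ComplexConjugate BigOperators

/-- families of matrices -/
abbrev Fam : Type := ∀ k, Matrix (Om k) (Om k) ℂ

/-- the family of multiplication operators by `f` -/
noncomputable def dg (f : G → ℂ) : Fam := fun _ => Matrix.diagonal fun ω => f ω.1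

/-- the family of the permutation matrices -/
noncomputable def pm (j : Fin 3) : Fam := fun k => fun ω ω' => if rO j k ω = ω' then 1 else 0

/-- The list of generators -/
abbrev FI : Type := Fin 5 ⊕ Fin 3

/-- the five functions -/
noncomputable def fct : Fin 5 → G → ℂ := ![fun _ => 1, fun ω => ((ω.1 : ℂ).re : ℂ),
  fun ω => ((ω.1 : ℂ).im : ℂ), fun ω => ((ω.2 : ℂ).re : ℂ), fun ω => ((ω.2 : ℂ).im : ℂ)]

/-- the generators -/
noncomputable def Fm : FI → Fam
  | Sum.inl i => dg (fct i)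
  | Sum.inr j => pm j

lemma opBd_diagonal {X : Type*} [Fintype X] [DecidableEq X] (f : X → ℂ) (C : ℝ) (hC : 0 ≤ C)
    (h : ∀ x, ‖f x‖ ≤ C) : OpBd (Matrix.diagonal f) C := by
  refine ⟨hC, fun ξ => ?_⟩
  rw [Finset.mul_sum]
  refine Finset.sum_le_sum fun i _ => ?_
  have : ∑ j, Matrix.diagonal f i j * ξ j = f i * ξ i := by
    rw [Finset.sum_eq_single i]
    · rw [Matrix.diagonal_apply_eq]
    · intro j _ hj
      rw [Matrix.diagonal_apply_ne _ hj.symm, zero_mul]
    · intro h; exact absurd (Finset.mem_univ i) h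
  rw [this, norm_mul, mul_pow]
  exact mul_le_mul_of_nonneg_right (pow_le_pow_left₀ (norm_nonneg _) (h i) 2) (by positivity)

lemma pm_mulVec (j : Fin 3) (k : ℕ) (ξ : Om k → ℂ) (ω : Om k) :
    ∑ ω', pm j k ω ω' * ξ ω' = ξ (rO j k ω) := by
  unfold pm
  simp

lemma opBd_pm (j : Fin 3) (k : ℕ) : OpBd (pm j k) 1 := by
  refine ⟨zero_le_one, fun ξ => ?_⟩
  simp_rw [pm_mulVec]
  rw [Equiv.sum_comp (rO j k) (fun ω => ‖ξ ω‖ ^ 2)]
  simp

lemma opBd_mul {X : Type*} [Fintype X] {M N : Matrix X X ℂ} {C D : ℝ} (hM : OpBd M C)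
    (hN : OpBd N D) : OpBd (M * N) (C * D) := by
  rw [opBd_iff] at *
  refine ⟨mul_nonneg hM.1 hN.1, fun ξ => ?_⟩
  rw [← Matrix.mulVec_mulVec]
  calc _ ≤ C * √(sq2 (N.mulVec ξ)) := hM.2 _
    _ ≤ C * (D * √(sq2 ξ)) := mul_le_mul_of_nonneg_left (hN.2 ξ) hM.1
    _ = _ := by ring

lemma pm_mul_pm (j : Fin 3) : pm j * pm j = 1 := by
  funext k
  ext ω ω'
  change ∑ ω'', pm j k ω ω'' * pm j k ω'' ω' = (1 : Matrix (Om k) (Om k) ℂ) ω ω'
  rw [pm_mulVec j k (fun ω'' => pm j k ω'' ω') ω]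
  unfold pm
  rw [rO_rO, Matrix.one_apply]

lemma dg_mul_pm_apply (f : G → ℂ) (j : Fin 3) (k : ℕ) (ω ω' : Om k) :
    (dg f * pm j) k ω ω' = f ω.1 * (if rO j k ω = ω' then 1 else 0) := by
  change (Matrix.diagonal (fun ω : Om k => f ω.1) * pm j k) ω ω' = _
  rw [Matrix.diagonal_mul]
  rfl

lemma pm_mul_dg_apply (f : G → ℂ) (j : Fin 3) (k : ℕ) (ω ω' : Om k) :
    (pm j * dg f) k ω ω' = (if rO j k ω = ω' then 1 else 0) * f ω'.1 := by
  change (pm j k * Matrix.diagonal (fun ω : Om k => f ω.1)) ω ω' = _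
  rw [Matrix.mul_diagonal]
  rfl

lemma pm_dg_pm (f : G → ℂ) (j : Fin 3) :
    pm j * (dg f * pm j) = dg (fun ω => f (rr j ω)) := by
  funext k
  ext ω ω'
  change ∑ ω'', pm j k ω ω'' * (dg f * pm j) k ω'' ω' = _
  rw [pm_mulVec j k (fun ω'' => (dg f * pm j) k ω'' ω') ω, dg_mul_pm_apply, rO_rO]
  change _ = Matrix.diagonal (fun ω : Om k => f (rr j ω.1)) ω ω'
  rw [Matrix.diagonal_apply]
  split_ifs with h
  · rw [mul_one]; rfl
  · rw [mul_zero]

/-- selfadjoint families -/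
def SA (h : Fam) : Prop := ∀ k ω ω', h k ω' ω = conj (h k ω ω')

lemma sum_real {X : Type*} [Fintype X] {M : Matrix X X ℂ} (h : ∀ x y, M y x = conj (M x y))
    (ξ : X → ℂ) : (∑ i, conj (ξ i) * ∑ j, M i j * ξ j).im = 0 := by
  have h1 : conj (∑ i, conj (ξ i) * ∑ j, M i j * ξ j) = ∑ i, conj (ξ i) * ∑ j, M i j * ξ j := by
    rw [map_sum]
    simp_rw [map_mul, map_sum, map_mul, Complex.conj_conj, Finset.mul_sum]
    rw [Finset.sum_comm]
    refine Finset.sum_congr rfl fun i _ => Finset.sum_congr rfl fun j _ => ?_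
    rw [← h]
    ring
  exact Complex.conj_eq_iff_im.1 h1

lemma opBd_shift {X : Type*} [Fintype X] [DecidableEq X] {M : Matrix X X ℂ}
    (h : ∀ x y, M y x = conj (M x y)) (hM : OpBd M 1) (t C : ℝ) (hC : 0 ≤ C)
    (htC : 1 + t ^ 2 ≤ C ^ 2) : OpBd (M + ((t : ℂ) * Complex.I) • (1 : Matrix X X ℂ)) C := by
  refine ⟨hC, fun ξ => ?_⟩
  have e1 : ∀ i, ∑ j, (M + ((t : ℂ) * Complex.I) • (1 : Matrix X X ℂ)) i j * ξ j
      = (∑ j, M i j * ξ j) + ((t : ℂ) * Complex.I) * ξ i := by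
    intro i
    have : ∑ j, (M + ((t : ℂ) * Complex.I) • (1 : Matrix X X ℂ)) i j * ξ j
        = ∑ j, (M i j * ξ j + ((t : ℂ) * Complex.I) * ((1 : Matrix X X ℂ) i j * ξ j)) := by
      refine Finset.sum_congr rfl fun j _ => ?_
      rw [Matrix.add_apply, Matrix.smul_apply, smul_eq_mul]; ring
    rw [this, Finset.sum_add_distrib, ← Finset.mul_sum]
    congr 2
    simp [Matrix.one_apply]
  have e2 : ∀ i, ‖(∑ j, M i j * ξ j) + ((t : ℂ) * Complex.I) * ξ i‖ ^ 2
      = ‖∑ j, M i j * ξ j‖ ^ 2 + t ^ 2 * ‖ξ i‖ ^ 2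
        + 2 * t * (conj (ξ i) * ∑ j, M i j * ξ j).im := by
    intro i
    generalize (∑ j, M i j * ξ j) = z
    rw [← Complex.normSq_eq_norm_sq, ← Complex.normSq_eq_norm_sq, ← Complex.normSq_eq_norm_sq]
    simp only [Complex.normSq_apply, Complex.add_re, Complex.add_im, Complex.mul_re, Complex.mul_im,
      Complex.ofReal_re, Complex.ofReal_im, Complex.I_re, Complex.I_im, Complex.conj_re,
      Complex.conj_im]
    ring
  simp_rw [e1, e2]
  rw [Finset.sum_add_distrib, Finset.sum_add_distrib, ← Finset.mul_sum, ← Finset.mul_sum,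
    ← Complex.im_sum, sum_real h ξ]
  have h3 := hM.2 ξ
  have h4 : 0 ≤ ∑ j, ‖ξ j‖ ^ 2 := Finset.sum_nonneg fun _ _ => by positivity
  nlinarith

/-- near states are nearly hermitian -/
lemma im_small (τ : Fam →ₗ[ℂ] ℂ) (r : ℝ) (hr : 0 ≤ r)
    (hb : ∀ (a : Fam) (C : ℝ), (∀ k, OpBd (a k) C) → ‖τ a‖ ≤ (1 + 1 / 10 ^ 6) * C * r)
    (h1 : ‖τ 1 - r‖ ≤ 1 / 10 ^ 6 * r) (h : Fam) (hs : SA h) (hh : ∀ k, OpBd (h k) 1) :
    |(τ h).im| ≤ 3 / 1000 * r := by
  have main : ∀ h : Fam, SA h → (∀ k, OpBd (h k) 1) → (τ h).im ≤ 3 / 1000 * r := by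
    intro h hs hh
    have hsh : ∀ k, OpBd ((h + (((1000 : ℝ) : ℂ) * Complex.I) • (1 : Fam)) k)
        (1000 + 1 / 2000) := by
      intro k
      have := opBd_shift (M := h k) (fun x y => hs k x y) (hh k) 1000 (1000 + 1 / 2000)
        (by norm_num) (by norm_num)
      exact this
    have h2 := hb _ _ hsh
    rw [map_add, map_smul, smul_eq_mul] at h2
    have h3 : (τ h + (((1000 : ℝ) : ℂ) * Complex.I) * τ 1).im = (τ h).im + 1000 * (τ 1).re := by
      simp
    have h4 : (τ h + (((1000 : ℝ) : ℂ) * Complex.I) * τ 1).im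
        ≤ ‖τ h + (((1000 : ℝ) : ℂ) * Complex.I) * τ 1‖ :=
      (le_abs_self _).trans (Complex.abs_im_le_norm _)
    have h5 : |(τ 1 - r).re| ≤ 1 / 10 ^ 6 * r := (Complex.abs_re_le_norm _).trans h1
    rw [Complex.sub_re, Complex.ofReal_re] at h5
    have h6 := (abs_le.1 h5).1
    rw [h3] at h4
    nlinarith
  rw [abs_le]
  constructor
  · have h2 := main (-h) (fun k ω ω' => by
      change -(h k ω' ω) = conj (-(h k ω ω'))
      rw [map_neg, hs k ω ω']) (fun k => by
      have := opBd_smul (-1) (hh k)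
      rw [norm_neg, norm_one, one_mul] at this
      have e : (-h) k = (-1 : ℂ) • h k := by
        rw [neg_one_smul]; rfl
      rw [e]; exact this)
    rw [map_neg, Complex.neg_im] at h2
    linarith
  · exact main h hs hh

/-- the permuted vector -/
noncomputable def pv (j : Fin 3) (n : ℕ) (η : Om n → ℂ) : Om n → ℂ := fun ω => η (rO j n ω)

lemma sq2_pv (j : Fin 3) (n : ℕ) (η : Om n → ℂ) : sq2 (pv j n η) = sq2 η :=
  Equiv.sum_comp (rO j n) (fun ω => ‖η ω‖ ^ 2)

lemma frm_pm_pv (j : Fin 3) (n : ℕ) (ξ : Om n → ℂ) :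
    frm (pm j n) ξ (pv j n ξ) = (sq2 ξ : ℂ) := by
  have h1 : frm (pm j n) ξ (pv j n ξ) = ∑ i, conj (ξ (rO j n i)) * ξ (rO j n i) := by
    unfold frm
    refine Finset.sum_congr rfl fun i _ => ?_
    have : ∑ k, conj (pv j n ξ i) * pm j n i k * ξ k = conj (pv j n ξ i) * ∑ k, pm j n i k * ξ k := by
      rw [Finset.mul_sum]
      exact Finset.sum_congr rfl fun k _ => by ring
    rw [this, pm_mulVec]
    rfl
  rw [h1, Equiv.sum_comp (rO j n) (fun i => conj (ξ i) * ξ i)]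
  unfold sq2
  rw [Complex.ofReal_sum]
  refine Finset.sum_congr rfl fun i _ => ?_
  rw [Complex.conj_mul']
  norm_cast

lemma pv_single (j : Fin 3) (n : ℕ) (y : Om n) :
    pv j n (Pi.single y 1) = Pi.single (rO j n y) 1 := by
  funext ω
  unfold pv
  by_cases h : ω = rO j n y
  · rw [h, rO_rO, Pi.single_eq_same, Pi.single_eq_same]
  · rw [Pi.single_eq_of_ne h, Pi.single_eq_of_ne]
    intro h1
    exact h (by rw [← h1, rO_rO])

lemma sq2_single {X : Type*} [Fintype X] [DecidableEq X] (y : X) :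
    sq2 (Pi.single y 1 : X → ℂ) = 1 := by
  unfold sq2
  rw [Finset.sum_eq_single y]
  · simp
  · intro j _ hj
    rw [Pi.single_eq_of_ne hj]; simp
  · intro h; exact absurd (Finset.mem_univ y) h

lemma ub_single {X : Type*} [Fintype X] [DecidableEq X] (y : X) : UB (Pi.single y 1 : X → ℂ) :=
  (sq2_single y).le

lemma sq2_add_le {X : Type*} [Fintype X] (ξ η : X → ℂ) :
    sq2 (ξ + η) ≤ 2 * sq2 ξ + 2 * sq2 η := by
  unfold sq2
  rw [Finset.mul_sum, Finset.mul_sum, ← Finset.sum_add_distrib]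
  refine Finset.sum_le_sum fun i _ => ?_
  have h := norm_add_le (ξ i) (η i)
  rw [Pi.add_apply]
  have h2 : ‖ξ i + η i‖ ^ 2 ≤ (‖ξ i‖ + ‖η i‖) ^ 2 := pow_le_pow_left₀ (norm_nonneg _) h 2
  nlinarith [sq_nonneg (‖ξ i‖ - ‖η i‖)]

/-- polarization of a sesquilinear form with small imaginary part on the diagonal -/
lemma polar {X : Type*} [Fintype X] (M : Matrix X X ℂ) (R : (X → ℂ) → (X → ℂ))
    (Radd : ∀ ξ η, R (ξ + η) = R ξ + R η) (Rsmul : ∀ (c : ℂ) ξ, R (c • ξ) = c • R ξ) (ξ η : X → ℂ)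
    (κ : ℝ) (h : ∀ u : ℂ, ‖u‖ = 1 → |(frm M (ξ + u • η) (R (ξ + u • η))).im| ≤ κ) :
    |(frm M ξ (R η)).re - (frm M η (R ξ)).re| ≤ κ ∧
      |(frm M ξ (R η)).im + (frm M η (R ξ)).im| ≤ κ := by
  have e : ∀ u : ℂ, frm M (ξ + u • η) (R (ξ + u • η)) = frm M ξ (R ξ)
      + conj u * frm M ξ (R η) + u * frm M η (R ξ) + u * conj u * frm M η (R η) := by
    intro u
    rw [Radd, Rsmul, frm_add_left, frm_add_right, frm_add_right, frm_smul_left, frm_smul_left,
      frm_smul_right, frm_smul_right]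
    ring
  have h1 := h 1 (by simp)
  have h2 := h (-1) (by simp)
  have h3 := h Complex.I (by simp)
  have h4 := h (-Complex.I) (by simp)
  rw [e] at h1 h2 h3 h4
  simp only [map_one, map_neg, Complex.conj_I, Complex.add_im, Complex.mul_im, Complex.one_re,
    Complex.one_im, Complex.neg_re, Complex.neg_im, Complex.I_re, Complex.I_im, Complex.mul_re]
    at h1 h2 h3 h4
  rw [abs_le] at h1 h2 h3 h4
  constructor <;> rw [abs_le] <;> constructor <;>
    nlinarith [h1.1, h1.2, h2.1, h2.2, h3.1, h3.2, h4.1, h4.2]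

section rigid

variable (n : ℕ) (T : Fam →ₗ[ℂ] Matrix (Om n) (Om n) ℂ)
  (hb : ∀ (a : Fam) (C : ℝ), (∀ k, OpBd (a k) C) → ∀ ξ η, UB ξ → UB η →
    ‖frm (T a) ξ η‖ ≤ (1 + 1 / 10 ^ 6) * C)
  (hF : ∀ (i : FI) ξ η, UB ξ → UB η → ‖frm (T (Fm i) - Fm i n) ξ η‖ ≤ 1 / 10 ^ 6)

include hb hF

lemma im_beta (j : Fin 3) (ξ : Om n → ℂ) (h : Fam) (hs : SA h) (hh : ∀ k, OpBd (h k) 1) :
    |(frm (T (pm j * h)) ξ (pv j n ξ)).im| ≤ 3 / 1000 * sq2 ξ := by
  let τ : Fam →ₗ[ℂ] ℂ :=
    { toFun := fun z => frm (T (pm j * z)) ξ (pv j n ξ)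
      map_add' := fun x y => by rw [mul_add, map_add, frm_add]
      map_smul' := fun c x => by
        rw [mul_smul_comm, map_smul, frm_smul]; rfl }
  have hss : √(sq2 ξ) * √(sq2 ξ) = sq2 ξ := Real.mul_self_sqrt (sq2_nonneg ξ)
  refine im_small τ (sq2 ξ) (sq2_nonneg ξ) ?_ ?_ h hs hh
  · intro a C ha
    have h1 : ∀ k, OpBd ((pm j * a) k) C := by
      intro k
      have := opBd_mul (opBd_pm j k) (ha k)
      rw [one_mul] at this
      exact this
    have h2 := frm_hom (hb _ _ h1) ξ (pv j n ξ)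
    rw [sq2_pv, hss] at h2
    exact h2
  · have h2 := frm_hom (hF (Sum.inr j)) ξ (pv j n ξ)
    rw [sq2_pv, hss, frm_sub] at h2
    change ‖frm (T (pm j * 1)) ξ (pv j n ξ) - _‖ ≤ _
    rw [mul_one, ← frm_pm_pv j n ξ]
    exact h2

lemma invariance (j : Fin 3) (y : Om n) (f : G → ℝ) (hf : ∀ ω, |f ω| ≤ 1) :
    |(T (dg (fun ω => ((f (rr j ω) : ℝ) : ℂ))) y y).re
      - (T (dg (fun ω => (f ω : ℂ))) (rO j n y) (rO j n y)).re| ≤ 24 / 1000 := by
  set F : G → ℂ := fun ω => (f ω : ℂ) with hFdef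
  have hFc : ∀ ω, conj (F ω) = F ω := fun ω => Complex.conj_ofReal _
  have hF1 : ∀ ω, ‖F ω‖ ≤ 1 := by
    intro ω
    rw [hFdef]
    change ‖((f ω : ℝ) : ℂ)‖ ≤ 1
    rw [Complex.norm_real]; exact hf ω
  have hpc : ∀ (k : ℕ) (ω ω' : Om k), (rO j k ω' = ω) = (rO j k ω = ω') := by
    intro k ω ω'
    apply propext
    constructor
    · intro h; rw [← h, rO_rO]
    · intro h; rw [← h, rO_rO]
  set z : Fam := dg F * pm j with hz
  set w : Fam := pm j * dg F with hw
  have hzb : ∀ k, OpBd (z k) 1 := by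
    intro k
    have := opBd_mul (opBd_diagonal (fun ω : Om k => F ω.1) 1 zero_le_one (fun x => hF1 x.1))
      (opBd_pm j k)
    rw [one_mul] at this
    exact this
  have hwb : ∀ k, OpBd (w k) 1 := by
    intro k
    have := opBd_mul (opBd_pm j k)
      (opBd_diagonal (fun ω : Om k => F ω.1) 1 zero_le_one (fun x => hF1 x.1))
    rw [one_mul] at this
    exact this
  have hconj : ∀ k ω ω', conj (z k ω ω') = w k ω' ω := by
    intro k ω ω'
    rw [hz, hw, dg_mul_pm_apply, pm_mul_dg_apply, map_mul, hFc]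
    rw [apply_ite conj, map_one, map_zero]
    simp only [hpc k ω ω']
    ring
  have hconj' : ∀ k ω ω', conj (w k ω ω') = z k ω' ω := by
    intro k ω ω'
    rw [← hconj, Complex.conj_conj]
  set h1 : Fam := (1 / 2 : ℂ) • (z + w) with hh1
  set h2 : Fam := (-Complex.I / 2 : ℂ) • (z + (-1 : ℂ) • w) with hh2
  have s1 : SA h1 := by
    intro k ω ω'
    change (1 / 2 : ℂ) * (z k ω' ω + w k ω' ω) = conj ((1 / 2 : ℂ) * (z k ω ω' + w k ω ω'))
    rw [map_mul, map_add, hconj, hconj']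
    simp only [map_div₀, map_one, map_ofNat]
    ring
  have s2 : SA h2 := by
    intro k ω ω'
    change (-Complex.I / 2 : ℂ) * (z k ω' ω + (-1 : ℂ) * w k ω' ω)
      = conj ((-Complex.I / 2 : ℂ) * (z k ω ω' + (-1 : ℂ) * w k ω ω'))
    rw [map_mul, map_add, map_mul, hconj, hconj']
    simp only [map_div₀, map_one, map_neg, Complex.conj_I, map_ofNat]
    ring
  have b1 : ∀ k, OpBd (h1 k) 1 := by
    intro k
    have := opBd_smul (1 / 2 : ℂ) (opBd_add (hzb k) (hwb k))
    have e : ‖(1 / 2 : ℂ)‖ * (1 + 1) = 1 := by norm_num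
    rw [e] at this
    exact this
  have b2 : ∀ k, OpBd (h2 k) 1 := by
    intro k
    have h3 := opBd_smul (-1 : ℂ) (hwb k)
    rw [norm_neg, norm_one, one_mul] at h3
    have := opBd_smul (-Complex.I / 2 : ℂ) (opBd_add (hzb k) h3)
    have e : ‖(-Complex.I / 2 : ℂ)‖ * (1 + 1) = 1 := by
      rw [norm_div, norm_neg, Complex.norm_I]; norm_num
    rw [e] at this
    exact this
  have Radd : ∀ ξ η, pv j n (ξ + η) = pv j n ξ + pv j n η := fun _ _ => rfl
  have Rsmul : ∀ (c : ℂ) ξ, pv j n (c • ξ) = c • pv j n ξ := fun _ _ => rfl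
  have hsq : ∀ u : ℂ, ‖u‖ = 1 →
      sq2 ((Pi.single y 1 : Om n → ℂ) + u • (Pi.single (rO j n y) 1 : Om n → ℂ)) ≤ 4 := by
    intro u hu
    refine (sq2_add_le _ _).trans ?_
    rw [sq2_smul, sq2_single, sq2_single, hu]
    norm_num
  have pol : ∀ h : Fam, SA h → (∀ k, OpBd (h k) 1) →
      |(T (pm j * h) y y).re - (T (pm j * h) (rO j n y) (rO j n y)).re| ≤ 12 / 1000 ∧
      |(T (pm j * h) y y).im + (T (pm j * h) (rO j n y) (rO j n y)).im| ≤ 12 / 1000 := by
    intro h hs hh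
    have := polar (T (pm j * h)) (pv j n) Radd Rsmul (Pi.single y 1) (Pi.single (rO j n y) 1)
      (12 / 1000) (fun u hu => by
        refine (im_beta n T hb hF j _ h hs hh).trans ?_
        have := hsq u hu
        linarith)
    rw [pv_single, pv_single, rO_rO, frm_single, frm_single] at this
    exact this
  have p1 := pol h1 s1 b1
  have p2 := pol h2 s2 b2
  have ez : z = h1 + Complex.I • h2 := by
    rw [hh1, hh2]
    simp only [smul_add, smul_smul]
    have e1 : Complex.I * (-Complex.I / 2) = 1 / 2 := by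
      rw [mul_div_assoc', mul_neg, Complex.I_mul_I, neg_neg]
    rw [← mul_assoc, e1]
    have e2 : (1 / 2 : ℂ) * -1 = -(1 / 2) := by ring
    rw [e2, neg_smul]
    have : (1 / 2 : ℂ) • z + (1 / 2 : ℂ) • z = z := by
      rw [← add_smul]; norm_num
    calc z = (1 / 2 : ℂ) • z + (1 / 2 : ℂ) • z := this.symm
      _ = _ := by abel
  have ew : w = h1 + (-Complex.I) • h2 := by
    rw [hh1, hh2]
    simp only [smul_add, smul_smul]
    have e1 : -Complex.I * (-Complex.I / 2) = -(1 / 2) := by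
      rw [mul_div_assoc', neg_mul_neg, Complex.I_mul_I, neg_div]
    rw [← mul_assoc, e1]
    have e2 : -(1 / 2 : ℂ) * -1 = (1 / 2) := by ring
    rw [e2, neg_smul]
    have : (1 / 2 : ℂ) • w + (1 / 2 : ℂ) • w = w := by
      rw [← add_smul]; norm_num
    calc w = (1 / 2 : ℂ) • w + (1 / 2 : ℂ) • w := this.symm
      _ = _ := by abel
  clear_value h1 h2
  have eA : T (dg (fun ω => ((f (rr j ω) : ℝ) : ℂ))) y y
      = T (pm j * h1) y y + Complex.I * T (pm j * h2) y y := by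
    have e1 : dg (fun ω => ((f (rr j ω) : ℝ) : ℂ)) = pm j * z := (pm_dg_pm F j).symm
    rw [e1, ez, mul_add, mul_smul_comm, map_add, map_smul]
    rfl
  have eB : T (dg F) (rO j n y) (rO j n y) = T (pm j * h1) (rO j n y) (rO j n y)
      + (-Complex.I) * T (pm j * h2) (rO j n y) (rO j n y) := by
    have e1 : dg F = pm j * w := by
      rw [hw, ← mul_assoc, pm_mul_pm, one_mul]
    rw [e1, ew, mul_add, mul_smul_comm, map_add, map_smul]
    rfl
  rw [eA, eB]
  simp only [Complex.add_re, Complex.mul_re, Complex.I_re, Complex.I_im, Complex.neg_re,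
    Complex.neg_im]
  have q1 := abs_le.1 p1.1
  have q2 := abs_le.1 p2.2
  rw [abs_le]
  constructor <;> linarith [q1.1, q1.2, q2.1, q2.2]

end rigid

theorem rigidity (n : ℕ) (T : Fam →ₗ[ℂ] Matrix (Om n) (Om n) ℂ)
    (h0 : ∀ a : Fam, (∃ N, ∀ k, N < k → a k = 0) → T a = 0)
    (hb : ∀ (a : Fam) (C : ℝ), (∀ k, OpBd (a k) C) → ∀ ξ η, UB ξ → UB η →
      ‖frm (T a) ξ η‖ ≤ (1 + 1 / 10 ^ 6) * C)
    (hF : ∀ (i : FI) ξ η, UB ξ → UB η → ‖frm (T (Fm i) - Fm i n) ξ η‖ ≤ 1 / 10 ^ 6) : False := by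
  let cst : (G → ℝ) →ₗ[ℝ] Fam :=
    { toFun := fun f => dg (fun ω => (f ω : ℂ))
      map_add' := fun f g => by
        funext k
        ext ω ω'
        change Matrix.diagonal (fun ω : Om k => (((f + g) ω.1 : ℝ) : ℂ)) ω ω'
          = Matrix.diagonal (fun ω : Om k => (f ω.1 : ℂ)) ω ω'
          + Matrix.diagonal (fun ω : Om k => (g ω.1 : ℂ)) ω ω'
        rw [Matrix.diagonal_apply, Matrix.diagonal_apply, Matrix.diagonal_apply]
        split_ifs
        · rw [Pi.add_apply, Complex.ofReal_add]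
        · rw [add_zero]
      map_smul' := fun c f => by
        funext k
        ext ω ω'
        change Matrix.diagonal (fun ω : Om k => (((c • f) ω.1 : ℝ) : ℂ)) ω ω'
          = c • Matrix.diagonal (fun ω : Om k => (f ω.1 : ℂ)) ω ω'
        rw [Matrix.diagonal_apply, Matrix.diagonal_apply]
        split_ifs
        · rw [Pi.smul_apply, smul_eq_mul, Complex.ofReal_mul]
          rfl
        · rw [smul_zero] }
  let p : Om n → ((G → ℝ) →ₗ[ℝ] ℝ) := fun y =>
    { toFun := fun f => (T (cst f) y y).re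
      map_add' := fun f g => by
        rw [map_add, map_add, Matrix.add_apply, Complex.add_re]
      map_smul' := fun c f => by
        have e1 : cst (c • f) = (c : ℂ) • cst f := by
          rw [map_smul]
          rfl
        rw [e1, map_smul, Matrix.smul_apply, smul_eq_mul, Complex.re_ofReal_mul]
        rfl }
  have hF' : ∀ (i : FI) (y : Om n), ‖T (Fm i) y y - Fm i n y y‖ ≤ 1 / 10 ^ 6 := by
    intro i y
    have := hF i (Pi.single y 1) (Pi.single y 1) (ub_single y) (ub_single y)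
    rw [frm_single, Matrix.sub_apply] at this
    exact this
  have hre : ∀ (i : Fin 5) (q : G → ℝ) (hq : fct i = fun ω => (q ω : ℂ)) (y : Om n),
      |p y q - q y.1| ≤ 1 / 10 ^ 6 := by
    intro i q hq y
    have h1 := hF' (Sum.inl i) y
    have h2 : Fm (Sum.inl i) = cst q := by
      change dg (fct i) = dg (fun ω => (q ω : ℂ))
      rw [hq]
    rw [h2] at h1
    have h3 : cst q n y y = (q y.1 : ℂ) := by
      change Matrix.diagonal (fun ω : Om n => (q ω.1 : ℂ)) y y = _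
      rw [Matrix.diagonal_apply_eq]
    rw [h3] at h1
    refine (le_trans ?_ h1)
    have h4 := Complex.abs_re_le_norm (T (cst q) y y - (q y.1 : ℂ))
    rw [Complex.sub_re, Complex.ofReal_re] at h4
    exact h4
  have hone : ∀ y, |p y (fun _ => 1) - 1| ≤ 1 / 10 ^ 6 := by
    intro y
    exact hre 0 (fun _ => 1) (by funext ω; simp [fct]) y
  refine no_means n (1 / 10 ^ 6) (by norm_num) (by norm_num) p ?_ hone ?_
    (fun y => hre 1 (fun ω => (ω.1 : ℂ).re) rfl y) (fun y => hre 2 (fun ω => (ω.1 : ℂ).im) rfl y)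
    (fun y => hre 3 (fun ω => (ω.2 : ℂ).re) rfl y) (fun y => hre 4 (fun ω => (ω.2 : ℂ).im) rfl y) ?_
  · intro y f hf0 hf1
    have h1 := (abs_le.1 (hone y)).1
    have h2 : p y f = p y (fun _ => 1) - p y ((fun _ => 1) - f) := by
      rw [map_sub]; ring
    have h3 : ∀ k, OpBd (cst ((fun _ => 1) - f) k) 1 := by
      intro k
      refine opBd_diagonal _ 1 zero_le_one (fun x => ?_)
      rw [Complex.norm_real, Real.norm_eq_abs, abs_le, Pi.sub_apply]
      constructor <;> linarith [hf0 x.1, hf1 x.1]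
    have h4 := hb _ _ h3 (Pi.single y 1) (Pi.single y 1) (ub_single y) (ub_single y)
    rw [frm_single] at h4
    have h5 : p y ((fun _ => 1) - f) ≤ 1 + 1 / 10 ^ 6 := by
      have h6 := (le_abs_self _).trans (Complex.abs_re_le_norm (T (cst ((fun _ => 1) - f)) y y))
      rw [mul_one] at h4
      exact h6.trans h4
    rw [h2]
    linarith
  · intro y f hf
    have h1 : T (cst f) = 0 := by
      apply h0
      refine ⟨n, fun k hk => ?_⟩
      ext ω ω'
      change Matrix.diagonal (fun ω : Om k => (f ω.1 : ℂ)) ω ω' = 0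
      rw [Matrix.diagonal_apply]
      split_ifs
      · rw [hf ω.1 (by rw [ω.2]; omega), Complex.ofReal_zero]
      · rfl
    change (T (cst f) y y).re = 0
    rw [h1]
    simp
  · intro j y f hf0 hf1
    refine (invariance n T hb hF j y f (fun ω => ?_)).trans (by norm_num)
    rw [abs_le]
    constructor <;> linarith [hf0 ω, hf1 ω]

end Pool.Agent.Compl
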