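import Mathlib

/-! # The finite subsets of the torus consisting of the elements of a given exact order, and three
involutive automorphisms -/

set_option autoImplicit false

namespace Pool.Agent.Compl

/-- The two-dimensional torus. -/
abbrev G : Type := Circle × Circle

/-- The elements of order `n + 1` of the torus. -/
def Om (n : ℕ) : Type := {ω : G // orderOf ω = n + 1}

lemma circle_finite (n : ℕ) : {z : Circle | z ^ (n + 1) = 1}.Finite := by
  have h : {z : ℂ | z ^ (n + 1) = 1}.Finite := by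
    refine Set.Finite.subset (Polynomial.nthRootsFinset (n + 1) (1 : ℂ)).finite_toSet ?_
    intro z hz
    have hz' : z ^ (n + 1) = 1 := hz
    simp only [Finset.mem_coe]
    rw [Polynomial.mem_nthRootsFinset (Nat.succ_pos n)]
    exact hz'
  refine Set.Finite.of_finite_image (f := fun z : Circle => (z : ℂ)) ?_ ?_
  · refine h.subset ?_
    rintro _ ⟨z, hz, rfl⟩
    have hz' : z ^ (n + 1) = 1 := hz
    have : ((z ^ (n + 1) : Circle) : ℂ) = ((1 : Circle) : ℂ) := by rw [hz']
    simpa using this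
  · intro a _ b _ hab
    exact Subtype.ext hab

instance instFiniteOm (n : ℕ) : Finite (Om n) := by
  have h : {ω : G | orderOf ω = n + 1}.Finite := by
    refine ((circle_finite n).prod (circle_finite n)).subset ?_
    intro ω hω
    have hω' : orderOf ω = n + 1 := hω
    have h1 : ω ^ (n + 1) = 1 := by rw [← hω']; exact pow_orderOf_eq_one ω
    refine ⟨?_, ?_⟩
    · have := congrArg Prod.fst h1
      simpa using this
    · have := congrArg Prod.snd h1
      simpa using this
  exact h.to_subtype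

noncomputable instance instFintypeOm (n : ℕ) : Fintype (Om n) := Fintype.ofFinite _

noncomputable instance instDecEqOm (n : ℕ) : DecidableEq (Om n) := Classical.decEq _

instance instNonemptyOm (n : ℕ) : Nonempty (Om n) := by
  have h := Complex.isPrimitiveRoot_exp (n + 1) (Nat.succ_ne_zero n)
  have hn : ‖Complex.exp (2 * Real.pi * Complex.I / ((n + 1 : ℕ) : ℂ))‖ = 1 :=
    h.norm'_eq_one (Nat.succ_ne_zero n)
  let w : Circle := ⟨Complex.exp (2 * Real.pi * Complex.I / ((n + 1 : ℕ) : ℂ)), by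
    exact mem_sphere_zero_iff_norm.2 hn⟩
  have hw : orderOf w = n + 1 := by
    have h2 : orderOf (Circle.coeHom w) = orderOf w :=
      orderOf_injective Circle.coeHom Circle.coe_injective w
    rw [← h2]
    exact h.eq_orderOf.symm
  refine ⟨⟨(w, 1), ?_⟩⟩
  rw [Prod.orderOf_mk, hw]
  simp

/-- The automorphism `(a, b) ↦ (a b³, b⁻¹)`. -/
noncomputable def r0 : G →* G where
  toFun ω := (ω.1 * ω.2 ^ 3, ω.2⁻¹)
  map_one' := by simp
  map_mul' x y := by
    ext1
    · simp only [Prod.fst_mul, Prod.snd_mul, mul_pow]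
      exact mul_mul_mul_comm _ _ _ _
    · simp only [Prod.snd_mul, mul_inv]

/-- The automorphism `(a, b) ↦ (a, b⁻¹)`. -/
noncomputable def r1 : G →* G where
  toFun ω := (ω.1, ω.2⁻¹)
  map_one' := by simp
  map_mul' x y := by
    ext1
    · simp only [Prod.fst_mul]
    · simp only [Prod.snd_mul, mul_inv]

/-- The automorphism `(a, b) ↦ (a⁻¹, a³ b)`. -/
noncomputable def r2 : G →* G where
  toFun ω := (ω.1⁻¹, ω.1 ^ 3 * ω.2)
  map_one' := by simp
  map_mul' x y := by
    ext1
    · simp only [Prod.fst_mul, mul_inv]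
    · simp only [Prod.fst_mul, Prod.snd_mul, mul_pow]
      exact mul_mul_mul_comm _ _ _ _

/-- The three automorphisms. -/
noncomputable def rr : Fin 3 → (G →* G) := ![r0, r1, r2]

lemma rr_rr (j : Fin 3) (ω : G) : rr j (rr j ω) = ω := by
  fin_cases j
  · change ((ω.1 * ω.2 ^ 3) * (ω.2⁻¹) ^ 3, (ω.2⁻¹)⁻¹) = ω
    ext1
    · simp [mul_assoc]
    · simp
  · change (ω.1, (ω.2⁻¹)⁻¹) = ω
    simp
  · change ((ω.1⁻¹)⁻¹, (ω.1⁻¹) ^ 3 * (ω.1 ^ 3 * ω.2)) = ω
    ext1
    · simp
    · simp [← mul_assoc]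

lemma rr_injective (j : Fin 3) : Function.Injective (rr j) :=
  Function.LeftInverse.injective (g := rr j) (rr_rr j)

lemma orderOf_rr (j : Fin 3) (ω : G) : orderOf (rr j ω) = orderOf ω :=
  orderOf_injective (rr j) (rr_injective j) ω

/-- The permutation of `Om n` induced by the automorphism `rr j`. -/
noncomputable def rO (j : Fin 3) (n : ℕ) : Om n ≃ Om n where
  toFun ω := ⟨rr j ω.1, by rw [orderOf_rr]; exact ω.2⟩
  invFun ω := ⟨rr j ω.1, by rw [orderOf_rr]; exact ω.2⟩
  left_inv ω := Subtype.ext (rr_rr j ω.1)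
  right_inv ω := Subtype.ext (rr_rr j ω.1)

lemma rO_rO (j : Fin 3) (n : ℕ) (ω : Om n) : rO j n (rO j n ω) = ω :=
  Subtype.ext (rr_rr j ω.1)

end Pool.Agent.Compl
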